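import Pool.Agent.MP_96693b_ag.DR.RSpread
import Pool.Agent.MP_ee8c61_ag.H95G.RES

/-!
From a smooth projective model with a normal crossings divisor to a polarized system of charts;
the vanishing theorem in the form of a lifting statement for principal parts.
-/

namespace Pool.Agent.MP_ee8c61_ag.M3V

open Pool.Agent.MP_96693b_ag.RS H59 Filter

noncomputable section

variable {K : Type} [Field K] [Algebra ℂ K] {n : ℕ}

/-- The algebra `B` with the inverse of `t`. -/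
def aw (B : Subalgebra ℂ K) (t : K) : Subalgebra ℂ K := B ⊔ Algebra.adjoin ℂ {t⁻¹}

/-- The Jacobian determinant of `r` in the chart `κ`. -/
def jac (κ : Chart K n) (r : Fin n → K) : K := (Matrix.of fun l i => κ.D i (r l)).det

/-- The elements `z` are etale coordinates of `B`. -/
def EtK (z : Fin n → K) (B : Subalgebra ℂ K) : Prop :=
  ∃ h : ∀ i, z i ∈ B, (MvPolynomial.aeval (R := ℂ) fun i => (⟨z i, h i⟩ : B)).toRingHom.Etale

/-- The point `p` lies in the part of the chart `u` where `t` is invertible. -/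
def In (M : Model K n) (u t : K) (p : M.P) : Prop :=
  chA M.U u ≤ (M.loc p).O ∧ (M.loc p).ev t ≠ 0

/-- Local equations of a divisor. -/
def CohE (M : Model K n) (η : M.P → K) : Prop :=
  ∀ a, ∀ᶠ b in zn a, (M.loc b).ev (η a / η b) ≠ 0

/-- Local equations of the components of a normal crossings divisor. -/
def SncE (M : Model K n) {J : Type} (y : M.P → J → K) : Prop :=
  (∀ j, CohE M fun b => y b j) ∧ ∀ b, ∃ (κ : Chart K n) (σ : J → Option (Fin n)),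
    IsCrd (M.loc b) κ ∧ (∀ j j' i, σ j = some i → σ j' = some i → j = j') ∧
      ∀ j, (M.loc b).ev (y b j / κ.y (σ j)) ≠ 0

/-- The local equation of the divisor with coefficients `c`. -/
def monE {P J : Type} [Fintype J] (y : P → J → K) (c : J → ℤ) (b : P) : K := ∏ j, y b j ^ c j

/-- The divisor is a positive multiple of the hyperplane class plus a base point free divisor. -/
def VAmp (M : Model K n) (η : M.P → K) : Prop :=
  ∃ m : ℕ, 0 < m ∧ ∀ b, ∃ s : K,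
    (∀ p, ∀ u ∈ M.U, u ≠ 0 → chA M.U u ≤ (M.loc p).O → s * u ^ m * η p ∈ (M.loc p).O) ∧
    ∀ u ∈ M.U, u ≠ 0 → chA M.U u ≤ (M.loc b).O → (M.loc b).ev (s * u ^ m * η b) ≠ 0

/-- Every coherent family of principal parts comes from a rational function. -/
def ML (M : Model K n) (η : M.P → K) : Prop :=
  ∀ g : M.P → K, (∀ a, ∀ᶠ b in zn a, (g a - g b) * η b ∈ (M.loc b).O) →
    ∃ G : K, ∀ b, (G - g b) * η b ∈ (M.loc b).O

/-- A finite cover by basic open sets that are the invertibility loci of sections. -/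
structure Atl (M : Model K n) (η u : M.P → K) (Q : M.P → M.P → Prop) {ι : Type} (c : ι → M.P)
    (t ρ : ι → K) (e : ℕ) : Prop where
  pos : 0 < e
  mem : ∀ i, t i ∈ chA M.U (u (c i))
  ctr : ∀ i, In M (u (c i)) (t i) (c i)
  cov : ∀ p, ∃ i, In M (u (c i)) (t i) p
  sub : ∀ i p, In M (u (c i)) (t i) p → Q (c i) p
  sec : ∀ i p, ρ i * η p ^ e ∈ (M.loc p).O
  gen : ∀ i p, In M (u (c i)) (t i) p → (M.loc p).ev (ρ i * η p ^ e) ≠ 0
  loc : ∀ i j, ∀ g ∈ aw (chA M.U (u (c i))) (t i), ∃ k : ℕ,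
    (ρ i / ρ j) ^ k * g ∈ aw (chA M.U (u (c j))) (t j)

/-- The system `S` consists of affine charts of the model; `I i` is the set of points of the
chart `i`. -/
structure Fit (M : Model K n) {ι J : Type} (y : M.P → J → K) (S : Sys ℂ K ι J n)
    (I : ι → M.P → Prop) : Prop where
  et : ∀ a, (S.zh a).toRingHom.Etale
  cl : H95G.RESA.Cl S (H95G.RESA.om S)
  cov : ∀ p, ∃ i, I i p
  ne : ∀ i, ∃ p, I i p
  le : ∀ i p, I i p → S.A i ≤ (M.loc p).O
  eqn : ∀ i p, I i p → ∀ j, (M.loc p).ev (y p j / (S.η i j : K)) ≠ 0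
  crd : ∀ i p, I i p → IsCrd (M.loc p) ((⟨S.z i, S.D i⟩ : Chart K n).shift (M.loc p))
  den : ∀ i i' f, (∀ p, I i p → I i' p → f ∈ (M.loc p).O) → f ∈ S.A i ⊔ S.A i'
  ref : ∃ i, S.r = S.z i

/-! ### Statements cited from other blocks -/

/-- Etale coordinates. -/
def SET : Prop := ∀ (n : ℕ) (B : Type) [CommRing B] [Algebra ℂ B] [Algebra.FiniteType ℂ B]
  (z : Fin n → B) (D : Fin n → Derivation ℂ B B) (φ : B →ₐ[ℂ] ℂ),
  (∀ l m, D l (z m) = if l = m then 1 else 0) →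
  (∀ x, φ x = 0 → ∃ s, φ s ≠ 0 ∧
    s * x ∈ Ideal.span (Set.range fun l => z l - algebraMap ℂ B (φ (z l)))) →
  ∃ t : B, φ t ≠ 0 ∧
    ((algebraMap B (Localization.Away t)).comp (MvPolynomial.aeval (R := ℂ) z).toRingHom).Etale

/-- The vanishing theorem for systems of charts in a field. -/
def SKVG : Prop := ∀ (K ι J : Type) (n m : ℕ) [Field K] [Algebra ℂ K] [Fintype ι] [Nonempty ι]
  [Fintype J] (S : Sys ℂ K ι J n) (x : Fin m → K) (w : J → ℤ) (ρ : ι → Kˣ) (μ : ℕ),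
  (∀ a, (S.zh a).toRingHom.Etale) → H95G.RESA.Cl S (H95G.RESA.om S) → S.Pol x w ρ → 0 < μ →
  ∀ g : ι → ι → K,
    (∀ a b, g a b * (Matrix.of fun l i => S.D a i (S.r l)).det *
      (S.mon a (Sys.cl w μ) : Kˣ) ∈ S.A a ⊔ S.A b) →
    (∀ a b c, g a b + g b c = g a c) →
    ∃ h : ι → K, (∀ a, h a * (Matrix.of fun l i => S.D a i (S.r l)).det *
      (S.mon a (Sys.cl w μ) : Kˣ) ∈ S.A a) ∧ ∀ a b, g a b = h a - h b

/-! ### Rows -/

/-- Functions that are regular at all points; centres of valuation rings. -/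
def StmtDEN : Prop := ∀ (K : Type) [Field K] [Algebra ℂ K] (n : ℕ) (M : Model K n),
  (∀ u t p, In M u t p → aw (chA M.U u) t ≤ (M.loc p).O) ∧
  (∀ u ∈ M.U, u ≠ 0 → ∀ t ∈ chA M.U u, t ≠ 0 → ∀ f,
    (∀ p, In M u t p → f ∈ (M.loc p).O) → f ∈ aw (chA M.U u) t) ∧
  (∀ u ∈ M.U, u ≠ 0 → ∀ t ∈ chA M.U u, t ≠ 0 → ∀ u' ∈ M.U, u' ≠ 0 → ∀ t' ∈ chA M.U u', t' ≠ 0 →
    ∀ f, (∀ p, In M u t p → In M u' t' p → f ∈ (M.loc p).O) →
      f ∈ aw (chA M.U u) t ⊔ aw (chA M.U u') t') ∧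
  ∀ V : ValuationSubring K, (∀ c : ℂ, algebraMap ℂ K c ∈ V) → ∃ p, ∀ g ∈ (M.loc p).O, g ∈ V

/-- Derivations of the field in coordinates; the chain rule. -/
def StmtDER : Prop := ∀ (K : Type) [Field K] [Algebra ℂ K] (n : ℕ) (M : Model K n) (b : M.P)
  (κ : Chart K n), IsCrd (M.loc b) κ →
  (∀ (δ : Der K) (g : K), δ g = ∑ i, δ (κ.x i) * κ.D i g) ∧
  (∀ i j g, κ.D i (κ.D j g) = κ.D j (κ.D i g)) ∧
  (∀ (κ' : Chart K n) (r : Fin n → K), jac κ' r = jac κ' κ.x * jac κ r) ∧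
  (∀ κ' : Chart K n, IsCrd (M.loc b) κ' → (M.loc b).ev (jac κ' κ.x) ≠ 0) ∧
  ∀ (κ' : Chart K n) (L : Loc K) (r : Fin n → K), jac (κ'.shift L) r = jac κ' r ∧
    jac κ (κ'.shift L).x = jac κ κ'.x

/-- Etale coordinates on small basic open sets. -/
def StmtETK : Prop := ∀ (K : Type) [Field K] [Algebra ℂ K] (n : ℕ) (B : Subalgebra ℂ K)
  (L : Loc K) (κ : Chart K n), B.FG → LocOf B L → IsCrd L κ →
  ∃ s ∈ B, L.ev s ≠ 0 ∧ ∀ t ∈ B, t ≠ 0 → s⁻¹ ∈ aw B t → EtK κ.x (aw B t)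

/-- Small covers exist. -/
def StmtATL : Prop := ∀ (K : Type) [Field K] [Algebra ℂ K] (n : ℕ) (M : Model K n)
  (η u : M.P → K) (Q : M.P → M.P → Prop), CohE M η → VAmp M η →
  (∀ b, u b ∈ M.U ∧ u b ≠ 0 ∧ chA M.U (u b) ≤ (M.loc b).O) → (∀ a, ∀ᶠ b in zn a, Q a b) →
  ∃ (ι : Type) (_ : Fintype ι) (c : ι → M.P) (t ρ : ι → K) (e : ℕ), Atl M η u Q c t ρ e

/-- The polarized system of charts. -/
def StmtSYS : Prop := ∀ (K : Type) [Field K] [Algebra ℂ K] (n : ℕ) (M : Model K n) (J : Type)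
  [Fintype J] (y : M.P → J → K) (w : J → ℤ) (Q : M.P → M.P → Prop), SncE M y →
  VAmp M (monE y w) → (∀ a, ∀ᶠ b in zn a, Q a b) →
  ∃ (ι : Type) (_ : Fintype ι) (S : Sys ℂ K ι J n) (I : ι → M.P → Prop) (c : ι → M.P)
    (ρ : ι → Kˣ) (e : ℕ), 0 < e ∧ Fit M y S I ∧ S.Pol (Fin.elim0 : Fin 0 → K) (e • w) ρ ∧
      ∀ i p, I i p → Q (c i) p

/-- The vanishing theorem on the model. -/
def StmtKVM : Prop := ∀ (K : Type) [Field K] [Algebra ℂ K] (n : ℕ) (M : Model K n) (J : Type)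
  [Fintype J] (y : M.P → J → K) (w : J → ℤ) (μ : ℕ) (r : Fin n → K) (h : K) (η : M.P → K),
  SncE M y → VAmp M (monE y w) → 0 < μ →
  (∀ b, ∃ κ : Chart K n, IsCrd (M.loc b) κ ∧
    (M.loc b).ev (η b / (h * jac κ r * monE y (Sys.cl w μ) b)) ≠ 0) → ML M η

end

end Pool.Agent.MP_ee8c61_ag.M3V
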