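import Pool.Agent.MP_ee8c61_ag.M3V.Van
import Pool.Agent.MP_ee8c61_ag.M3SN.SpecN

/-! Vanishing on surfaces for nef and big classes. -/

namespace Pool.Agent.MP_ee8c61_ag.M3V

open Pool.Agent.MP_96693b_ag.RS Pool.Agent.MP_cce4c9_lc M3S Finsupp Filter WithZero

theorem samp (h : M3SN.Each fun S => S.NAK) : SAMP := by
  intro K _ _ S O X hq ⟨ε, ε0, hε⟩
  obtain ⟨N, N0, hN⟩ := hq.clear
  obtain ⟨k, hk⟩ := exists_nat_gt (2 / ε)
  have k0 : (0 : ℝ) < k := (div_pos two_pos ε0).trans hk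
  have N1 : (1 : ℝ) ≤ N := by exact_mod_cast N0
  have a1 : 2 < k * ε := (div_lt_iff₀ ε0).1 hk
  obtain ⟨m, m0, -, hb⟩ := h K S O (((k * N : ℕ) : ℝ) • X - S.w)
    ((hq.nsmul _).sub O.wZ.isQ) ⟨1, one_pos, fun C => by
      have b1 := hε C
      have b2 := O.wpos C
      simp only [map_sub, map_smul, LinearMap.sub_apply, LinearMap.smul_apply, smul_eq_mul,
        Nat.cast_mul] at b1 ⊢
      have b3 : 0 ≤ (k * N * ε - 2) * S.I S.w (M3SN.cv C) :=
        mul_nonneg (by nlinarith) b2.le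
      nlinarith [mul_nonneg (mul_pos k0 (one_pos.trans_le N1)).le b1]⟩
  refine ⟨m * (k * N), m, Nat.mul_pos m0 (Nat.mul_pos (by exact_mod_cast k0) N0), m0, ?_, ?_⟩
  · rw [← mul_assoc, Nat.cast_mul, mul_smul]
    exact hN.nsmul _
  · rwa [smul_sub, ← mul_smul, ← Nat.cast_mul] at hb

theorem shod (h : M3SN.Each fun S => S.HODGE) : SHOD := fun K _ _ S O D _ h0 =>
  (h K S O S.w D O.ww (by rw [O.sym, h0])).1

theorem snul (hl : M3SN.StmtANTI) (h : M3SN.Each fun S => S.NULL) : SNUL := by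
  intro K _ _ S O N _ hn h0
  obtain ⟨T, h1, h2, h3⟩ := h K S O N hn h0
  obtain ⟨G, g1, g2, g3⟩ := hl _ S.I T O.lat h2
  refine ⟨T.finite_toSet.subset fun C hC => (h1 C).2 hC, G, g1, fun C => ?_,
    fun C hC => g2 C fun a => hC ((h1 C).1 a), h3 G g2 fun C hC => (g3 C hC).2⟩
  by_cases a : C ∈ T
  · exact (g3 C a).1.le
  · exact (g2 C a).ge

variable {K : Type} [Field K] [Algebra ℂ K] {M M' : Model K 2} {hd : Dom M' M}

theorem pb_Q (h : PulA hd) {D : Dr M} (hD : M3SN.IsQ D) : M3SN.IsQ (pb hd D) := by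
  obtain ⟨m, m0, hm⟩ := hD.clear
  have a := M3SN.IsZ.isQ (h.pZ _ hm)
  have b := a.smul (m : ℚ)⁻¹
  have m1 : (m : ℝ) ≠ 0 := Nat.cast_ne_zero.2 m0.ne'
  rwa [map_smul, smul_smul, Rat.cast_inv, Rat.cast_natCast, inv_mul_cancel₀ m1, one_smul] at b

theorem II_pb (a : PulA hd) (b : PulB hd) (D E : Dr M) :
    II M' (pb hd D) (pb hd E) = II M D E := by
  classical
  choose st hst using a.st
  have inj : Function.Injective st := fun C C' e =>
    Subtype.ext (by rw [← hst C, ← hst C', e])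
  rw [II_eq_sum, II_eq_sum D]
  refine (Finset.sum_of_injOn st inj.injOn (fun C hC => ?_) (fun C' _ hn => ?_)
    fun C _ => ?_).symm
  · rw [Finset.mem_coe, mem_support_iff, a.pst E C _ (hst C)]
    exact mem_support_iff.1 hC
  · by_cases e : C' ∈ Exc M' M
    · rw [b.iex D C' e, mul_zero]
    · obtain ⟨C, hC⟩ : ∃ C : Crv M, C.1 = C'.1 := by simpa [Exc] using e
      rw [a.pst E C C' hC.symm, notMem_support_iff.1 fun x => hn ⟨C, x, ?_⟩, zero_mul]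
      exact Subtype.ext ((hst C).trans hC)
  · rw [a.pst E C _ (hst C), b.ist D C _ (hst C)]

theorem lift_pt (h : B2 M) (h' : B2 M') {C : Crv M} {C' : Crv M'} (e : C'.1 = C.1) {p : M.P}
    (hp : On C p) : ∃ p', hd.map p' = p ∧ On C' p' := by
  obtain ⟨v, hv⟩ := C
  obtain ⟨v', hv'⟩ := C'
  obtain rfl : v' = v := e
  obtain ⟨u, hu⟩ := h.con _ p hp
  obtain ⟨p', h1⟩ := h'.cex ⟨v', hv'⟩ u
  exact ⟨p', h.cuq ⟨v', hv⟩ u _ _
    ⟨fun f hf => h1.1 f (hd.loc_le p' hf), fun f hf => h1.2 f (hd.loc_le p' hf)⟩ hu, h1.1⟩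

/-- Descent of the lifting property along a domination. -/
theorem ml_descend (h : B2 M) (h' : B2 M') (a : PulA hd) {L : Dr M} {G : Dr M'} (hL : IsInt L)
    (g0 : 0 ≤ G) (g1 : ∀ C', C' ∉ Exc M' M → G C' = 0) {η : M.P → K} {η' : M'.P → K}
    (hη : ∀ p, Eqn L p (η p)) (hη' : ∀ p, Eqn (pb hd L + G) p (η' p)) (hM : ML M' η') :
    ML M η := by
  intro g hg
  have q1 : ∀ p', η' p' / η (hd.map p') ∈ (M'.loc p').O := fun p' => by
    have b := eq_mul (hη' p') (eq_inv (a.isPb L hL p' _ (hη _)))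
    rw [add_neg_cancel_comm, ← div_eq_mul_inv] at b
    refine h'.hart _ _ fun C hC => ?_
    rw [C.1.val_le_one (C.1.val_ne b.1), ← Int.cast_le (R := ℝ), b.2 C hC, Int.cast_zero]
    exact g0 C
  obtain ⟨x, hx⟩ := hM (fun p' => g (hd.map p')) fun p' => by
    filter_upwards [(hd.tendsto_zn p').eventually (hg (hd.map p'))] with b hb
    have := mul_mem (hd.loc_le b hb) (q1 b)
    rwa [mul_assoc, mul_div_cancel₀ _ (hη _).1] at this
  refine ⟨x, fun p => h.hart _ _ fun C hC => ?_⟩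
  obtain ⟨C', e⟩ := a.st C
  obtain ⟨p', rfl, hp⟩ := lift_pt (hd := hd) h h' e hC
  obtain ⟨k, hk⟩ := hL C
  have b1 := hp _ (hx p')
  have b2 : (pb hd L + G) C' = k := by
    rw [Finsupp.add_apply, a.pst L C C' e, g1 C' fun x => x C e.symm, add_zero, hk]
  rw [map_mul, eq_val (hη' p') hp b2, e] at b1
  rwa [map_mul, eq_val (hη _) hC hk]

theorem kvn (hF : All Fnd) (hO : OfOK) (hA : All2 PulA) (hB : All2 PulB) (hP : All2 PltS)
    (hS : All SncS) (hv : StmtVANH) (hn : SNUL) : StmtKVN := by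
  classical
  intro K _ _ M J L Δ η hJ hL hq sΔ h0 h1 nf bg hη
  have h := hF K M
  set N := L - KD M - Δ with hN
  have qN : M3SN.IsQ N := (M3SN.IsZ.isQ (isInt_sub hL h.kZ)).sub hq
  obtain ⟨f1, -⟩ := hn K _ (hO K M h).1 N qN nf bg
  obtain ⟨M', hd, J', s1, s2, s3, s4, -⟩ := hS K M (L.support ∪ Δ.support ∪ f1.toFinset)
  have h' := hF K M'
  have a := hA K M M' hd
  have b := hB K M M' hd
  have p1 := hP K M M' hd Δ J hJ sΔ h1
  have cs : ∀ C' : Crv M', C' ∈ Exc M' M ∨ ∃ C : Crv M, C'.1 = C.1 := fun C' => by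
    by_contra x
    exact x (Or.inl fun C e => x (Or.inr ⟨C, e.symm⟩))
  have nf' : Nef (pb hd N) := fun C' => by
    rcases cs C' with x | ⟨C, x⟩
    · exact (b.iex N C' x).ge
    · rw [b.ist N C C' x]
      exact nf C
  obtain ⟨-, Γ, z1, z2, z3, e, e0, z4⟩ := hn K _ (hO K M' h').1 (pb hd N) (pb_Q a qN) nf'
    (show 0 < II M' _ _ by rwa [II_pb a b])
  change Dr M' at Γ
  set Δ' := pb hd (KD M + Δ) - KD M' with hΔ'
  let G : Dr M' := (-Δ').mapRange (fun x => (⌈x⌉ : ℝ)) (by simp)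
  have G0 : ∀ C', G C' = ⌈-Δ' C'⌉ := fun _ => rfl
  have d1 : ∀ (C : Crv M) (C' : Crv M'), C'.1 = C.1 → Δ' C' = Δ C := fun C C' x => by
    rw [hΔ', Finsupp.sub_apply, a.pst _ C C' x, b.kst C C' x, Finsupp.add_apply, add_sub_cancel_left]
  have g0 : 0 ≤ G := fun C' => by
    have x : 0 ≤ ⌈-Δ' C'⌉ := Int.ceil_nonneg_of_neg_one_lt (by linarith [p1 C'])
    rw [G0]
    exact Int.cast_nonneg x
  have g1 : ∀ C', C' ∉ Exc M' M → G C' = 0 := fun C' x => by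
    obtain ⟨C, y⟩ := (cs C').resolve_left x
    rw [G0, d1 C C' y, Int.cast_eq_zero, Int.ceil_eq_zero_iff]
    exact ⟨by linarith [h1 C], neg_nonpos.2 (h0 C)⟩
  have d2 : ∀ C', 0 ≤ (Δ' + G) C' ∧ (Δ' + G) C' < 1 := fun C' => by
    rw [Finsupp.add_apply, G0]
    constructor <;> linarith [Int.le_ceil (-Δ' C'), Int.ceil_lt_add_one (-Δ' C')]
  obtain ⟨t, t0, t1, t2⟩ : ∃ t : ℚ, (0 : ℝ) < t ∧ (t : ℝ) ≤ e ∧
      ∀ C' ∈ Γ.support, (Δ' + G) C' + t * Γ C' < 1 := by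
    have x1 : ∀ᶠ t : ℝ in nhds 0, t < e ∧ ∀ C' ∈ Γ.support, (Δ' + G) C' + t * Γ C' < 1 :=
      (eventually_lt_nhds e0).and ((eventually_all_finset _).2 fun C' _ =>
        ContinuousAt.eventually_lt (by fun_prop) continuousAt_const (by simpa using (d2 C').2))
    obtain ⟨δ, δ0, x2⟩ := Metric.eventually_nhds_iff.1 x1
    obtain ⟨t, y1, y2⟩ := exists_rat_btwn δ0
    have y3 := x2 (y := (t : ℝ)) (by rwa [Real.dist_eq, sub_zero, abs_of_pos y1])
    exact ⟨t, y1, y3.1.le, y3.2⟩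
  have zG : IsInt G := fun C' => ⟨_, G0 C'⟩
  have zL : IsInt (pb hd L + G) := isInt_add (a.pZ L hL) zG
  choose η' hη' using h'.eqn _ zL
  have o1 : ∀ C', C' ∉ J' → C' ∉ Exc M' M ∧ ∃ C : Crv M, C'.1 = C.1 ∧ L C = 0 ∧ Δ C = 0 ∧
      II M N (pr C) ≠ 0 := fun C' x => by
    have y := mt (s3 C') x
    obtain ⟨C, z⟩ := (cs C').resolve_left y
    have w := fun c => x (s2 C c C' z)
    simp only [Finset.mem_union, mem_support_iff, or_imp] at w
    exact ⟨y, C, z, by_contra w.1.1, by_contra w.1.2, fun c => w.2 (f1.mem_toFinset.2 c)⟩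
  refine ml_descend h.toB2 h'.toB2 a hL g0 g1 hη hη' (hv K M' J' _ (Δ' + G + (t : ℝ) • Γ) η' s1 zL
    (fun C' x => ?_) ?_ (fun C' x => ?_) (fun C' => ?_) (fun C' => ?_) ?_ hη')
  · obtain ⟨y, C, y1, y2, -⟩ := o1 C' x
    rw [Finsupp.sub_apply, Finsupp.add_apply, a.pst L C C' y1, y2, g1 C' y, s4 C' x]
    simp
  · exact (((pb_Q a ((M3SN.IsZ.isQ h.kZ).add hq)).sub (M3SN.IsZ.isQ h'.kZ)).add
      (M3SN.IsZ.isQ zG)).add (z1.isQ.smul t)
  · obtain ⟨y, C, y1, -, y2, y3⟩ := o1 C' x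
    have y4 : Γ C' = 0 := z3 C' (by
      change II M' (pb hd N) (pr C') ≠ 0
      rwa [b.ist N C C' y1])
    rw [Finsupp.add_apply, Finsupp.add_apply, Finsupp.smul_apply, d1 C C' y1, y2, g1 C' y, y4]
    simp
  · exact add_nonneg (d2 C').1 (mul_nonneg t0.le (z2 C'))
  · by_cases x : C' ∈ Γ.support
    · exact t2 C' x
    · rw [Finsupp.add_apply, Finsupp.smul_apply, notMem_support_iff.1 x, smul_zero, add_zero]
      exact (d2 C').2
  · have x : pb hd L + G - KD M' - (Δ' + G + (t : ℝ) • Γ) = pb hd N - (t : ℝ) • Γ := by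
      rw [hΔ', hN, map_add, map_sub, map_sub]
      abel
    rw [x]
    exact z4 t t0 t1

end Pool.Agent.MP_ee8c61_ag.M3V
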