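import Pool.Agent.MP_ee8c61_ag.M3V.Spec

/-! Row ATL: small covers by invertibility loci of sections. -/

namespace Pool.Agent.MP_ee8c61_ag.M3V

open Pool.Agent.MP_96693b_ag.RS H59 Filter

namespace RATL

variable {K : Type} [Field K] [Algebra ℂ K] {n : ℕ}

/-- Functions that a power of `r` moves into `A`. -/
def sat (A : Subalgebra ℂ K) {r : K} (hr : r ∈ A) : Subalgebra ℂ K where
  carrier := {g | ∃ k : ℕ, r ^ k * g ∈ A}
  mul_mem' := fun {a b} ⟨k, hk⟩ ⟨l, hl⟩ => ⟨k + l, by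
    have e : r ^ (k + l) * (a * b) = r ^ k * a * (r ^ l * b) := by ring
    rw [e]
    exact mul_mem hk hl⟩
  add_mem' := fun {a b} ⟨k, hk⟩ ⟨l, hl⟩ => ⟨k + l, by
    have e : r ^ (k + l) * (a + b) = r ^ l * (r ^ k * a) + r ^ k * (r ^ l * b) := by ring
    rw [e]
    exact add_mem (mul_mem (pow_mem hr l) hk) (mul_mem (pow_mem hr k) hl)⟩
  algebraMap_mem' := fun c => ⟨0, by
    rw [pow_zero, one_mul]
    exact A.algebraMap_mem c⟩

theorem reg {L : Loc K} {U : Set K} {s u v x τ η : K} {m e N : ℕ} (hN : m * e = N + 1)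
    (hu : u ≠ 0) (hv : v ≠ 0) (hx : x ∈ U) (hL : chA U v ≤ L.O) (h1 : s * v ^ m * η ∈ L.O)
    (h2 : τ * (u / v) ^ N ∈ chA U v) : s ^ e * u ^ (m * e) * τ * (x / u) * η ^ e ∈ L.O := by
  have E : s ^ e * u ^ (m * e) * τ * (x / u) * η ^ e =
      (s * v ^ m * η) ^ e * (τ * (u / v) ^ N) * (x / v) := by
    rw [mul_pow, mul_pow, ← pow_mul, hN, div_pow]
    field_simp
    ring
  rw [E]
  exact mul_mem (mul_mem (pow_mem h1 e) (hL h2)) (hL (div_mem_chA hx))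

theorem near {M : Model K n} {η : M.P → K} (hη : CohE M η) {a : M.P} {f : K}
    (h : (M.loc a).ev (f * η a) ≠ 0) : ∀ᶠ p in zn a, (M.loc p).ev (f * η p) ≠ 0 := by
  filter_upwards [zn_ne h, hη a] with p h1 h2
  have h3 := Loc.ne_zero_of_ev h2
  have ha : η a ≠ 0 := fun e => h3 (by rw [e, zero_div])
  have hp : η p ≠ 0 := fun e => h3 (by rw [e, div_zero])
  have E : f * η p = f * η a / (η a / η p) := by field_simp
  rw [E, Loc.ev_div (Loc.mem_of_ev h1) (Loc.mem_of_ev h2) h2]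
  exact div_ne_zero h1 h2

end RATL

open RATL in
theorem atl (h : StmtDEN) : StmtATL := by
  intro K _ _ n M η u Q hη hA hu hQ
  classical
  obtain ⟨m, hm, hs⟩ := hA
  choose s hs1 hs2 using hs
  have ex : ∀ a, ∃ t ∈ chA M.U (u a), (M.loc a).ev t ≠ 0 ∧ ∀ p : M.P,
      chA M.U (u a) ≤ (M.loc p).O → (M.loc p).ev t ≠ 0 →
        Q a p ∧ (M.loc p).ev (s a * u a ^ m * η p) ≠ 0 := fun a =>
    (eventually_zn_chart (hu a).1 (hu a).2.1 (hu a).2.2).1
      ((hQ a).and (near hη (hs2 a (u a) (hu a).1 (hu a).2.1 (hu a).2.2)))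
  choose t ht ht0 htP using ex
  obtain ⟨T, -, hT⟩ := exists_finset_cover Set.univ (fun a p => In M (u a) (t a) p) fun a _ => by
    filter_upwards [Model.sp_chart (hu a).1 (hu a).2.1 (hu a).2.2, zn_ne (ht0 a)] with p h1 h2
    exact ⟨h1.le, h2⟩
  choose d hd using fun a => exists_pow_chA (hu a).2.1 (hu a).1 (ht a)
  obtain ⟨e, he⟩ : ∃ e, e = ∑ a ∈ T, d a + 1 := ⟨_, rfl⟩
  obtain ⟨N, hN, hdN⟩ : ∃ N, m * e = N + 1 ∧ ∀ a ∈ T, d a ≤ N := by
    have h1 : e ≤ m * e := Nat.le_mul_of_pos_left e hm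
    refine ⟨m * e - 1, by omega, fun a ha => ?_⟩
    have := Finset.single_le_sum (f := d) (fun _ _ => Nat.zero_le _) ha
    omega
  obtain ⟨ρ, hρ⟩ : ∃ ρ : M.P → K, ∀ a, ρ a = s a ^ e * u a ^ (m * e) * t a := ⟨_, fun _ => rfl⟩
  have r1 : ∀ a ∈ T, ∀ (p : M.P), ∀ v ∈ M.U, v ≠ 0 → chA M.U v ≤ (M.loc p).O → ∀ x ∈ M.U,
      ρ a * (x / u a) * η p ^ e ∈ (M.loc p).O := fun a ha p v hv v0 hp x hx => by
    rw [hρ]
    exact reg hN (hu a).2.1 v0 hx hp (hs1 a p v hv v0 hp) (hd a N (hdN a ha) v v0)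
  have r2 : ∀ a (p : M.P), ∀ v ∈ M.U, v ≠ 0 → chA M.U v ≤ (M.loc p).O →
      ρ a * (t a)⁻¹ * η p ^ e ∈ (M.loc p).O := fun a p v hv v0 hp => by
    have := reg (τ := 1) hN (hu a).2.1 v0 (hu a).1 hp (hs1 a p v hv v0 hp)
      (by rw [one_mul]; exact pow_mem (div_mem_chA (hu a).1) N)
    rw [div_self (hu a).2.1, mul_one, mul_one] at this
    rwa [hρ, mul_inv_cancel_right₀ (Loc.ne_zero_of_ev (ht0 a))]
  have gen : ∀ a p, In M (u a) (t a) p → (M.loc p).ev (ρ a * η p ^ e) ≠ 0 := fun a p hp => by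
    have h1 := (htP a p hp.1 hp.2).2
    have E : ρ a * η p ^ e = (s a * u a ^ m * η p) ^ e * t a := by
      rw [hρ, mul_pow, mul_pow, ← pow_mul]
      ring
    rw [E, (M.loc p).ev_mul _ (pow_mem (Loc.mem_of_ev h1) e) _ (Loc.mem_of_ev hp.2),
      Loc.ev_pow (Loc.mem_of_ev h1)]
    exact mul_ne_zero (pow_ne_zero e h1) hp.2
  have den : ∀ a b g, (∀ p, In M (u b) (t b) p → ρ a * g * η p ^ e ∈ (M.loc p).O) →
      ρ a / ρ b * g ∈ aw (chA M.U (u b)) (t b) := fun a b g hg => by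
    refine (h K n M).2.1 (u b) (hu b).1 (hu b).2.1 (t b) (ht b) (Loc.ne_zero_of_ev (ht0 b)) _
      fun p hp => ?_
    have h1 := gen b p hp
    have h2 := mul_ne_zero_iff.1 (Loc.ne_zero_of_ev h1)
    have E : ρ a / ρ b * g = ρ a * g * η p ^ e / (ρ b * η p ^ e) := by
      rw [mul_div_mul_right _ _ h2.2]
      ring
    rw [E]
    exact Loc.div_mem (hg p hp) (Loc.mem_of_ev h1) h1
  refine ⟨T, inferInstance, Subtype.val, fun i => t i, fun i => ρ i, e, by omega,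
    fun i => ht i, fun i => ⟨(hu i).2.2, ht0 i⟩, fun p => ?_, fun i p hp => (htP i p hp.1 hp.2).1,
    fun i p => ?_, fun i => gen i, fun i j => ?_⟩
  · obtain ⟨a, ha, hp⟩ := hT p trivial
    exact ⟨⟨a, ha⟩, hp⟩
  · have := r1 i i.2 p (u p) (hu p).1 (hu p).2.1 (hu p).2.2 (u i) (hu i).1
    rwa [div_self (hu i).2.1, mul_one] at this
  · have hx : ∀ x ∈ M.U, ρ i / ρ j * (x / u i) ∈ aw (chA M.U (u j)) (t j) := fun x hx =>
      den i j _ fun p hp => r1 i i.2 p (u j) (hu j).1 (hu j).2.1 hp.1 x hx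
    have hr : ρ i / ρ j ∈ aw (chA M.U (u j)) (t j) := by
      have := hx (u i) (hu i).1
      rwa [div_self (hu i).2.1, mul_one] at this
    have hle : aw (chA M.U (u i)) (t i) ≤ sat _ hr := by
      refine sup_le (chA_le.2 fun x hx' => ⟨1, by rw [pow_one]; exact hx x hx'⟩)
        (Algebra.adjoin_le ?_)
      rintro _ rfl
      exact ⟨1, by
        rw [pow_one]
        exact den i j _ fun p hp => r2 i p (u j) (hu j).1 (hu j).2.1 hp.1⟩
    exact fun g hg => hle hg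

end Pool.Agent.MP_ee8c61_ag.M3V
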