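import Pool.Agent.MP_ee8c61_ag.M3V.Spec

/-! Functions that are regular at all points; centres of valuation rings. -/

namespace Pool.Agent.MP_ee8c61_ag.M3V

open Pool.Agent.MP_96693b_ag.RS

namespace RDEN

variable {K : Type} [Field K] [Algebra ℂ K] {n : ℕ}

theorem mem_of_loc {B : Subalgebra ℂ K} (hB : B.FG) {f : K}
    (h : ∀ L, LocOf B L → f ∈ L.O) : f ∈ B := by
  let I : Ideal B :=
    { carrier := {q | f * q ∈ B}
      add_mem' := fun {a b} ha hb => by
        change f * ((a : K) + b) ∈ B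
        rw [mul_add]
        exact add_mem ha hb
      zero_mem' := by
        change f * (0 : K) ∈ B
        rw [mul_zero]
        exact zero_mem _
      smul_mem' := fun c x hx => by
        change f * ((c : K) * x) ∈ B
        rw [mul_left_comm]
        exact mul_mem c.2 hx }
  by_cases h1 : (1 : B) ∈ I.radical
  · obtain ⟨k, hk⟩ := h1
    rw [one_pow] at hk
    have : f * (1 : K) ∈ B := hk
    rwa [mul_one] at this
  · obtain ⟨L, hL, h0, -⟩ := exists_locOf_of_notMem hB h1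
    obtain ⟨p, hp, q, hq, h2, e⟩ := hL.frac f (h L hL)
    exact absurd (h0 ⟨q, hq⟩ (show f * q ∈ B from e ▸ hp)) h2

theorem aw_fg {B : Subalgebra ℂ K} (hB : B.FG) (t : K) : (aw B t).FG :=
  hB.sup (Subalgebra.fg_def.2 ⟨_, Set.finite_singleton _, rfl⟩)

theorem inv_mem_aw (B : Subalgebra ℂ K) (t : K) : t⁻¹ ∈ aw B t :=
  (le_sup_right : Algebra.adjoin ℂ {t⁻¹} ≤ aw B t) (Algebra.subset_adjoin rfl)

theorem exists_in (M : Model K n) {u t : K} (hu : u ∈ M.U) (h0 : u ≠ 0) (ht : t ∈ chA M.U u)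
    (t0 : t ≠ 0) {L : Loc K} (hL : aw (chA M.U u) t ≤ L.O) :
    ∃ p, In M u t p ∧ (M.loc p).O ≤ L.O := by
  have h1 : chA M.U u ≤ L.O := le_sup_left.trans hL
  obtain ⟨p, hp, hl⟩ := Model.exists_le hu h0 h1
  refine ⟨p, ⟨hl.le, ?_⟩, hp⟩
  rw [← Loc.ev_eq_of_le hp (hl.le ht)]
  have h2 := L.ev_mul _ (h1 ht) _ (hL (inv_mem_aw _ t))
  rw [mul_inv_cancel₀ t0, Loc.ev_one] at h2
  exact left_ne_zero_of_mul_eq_one h2.symm

theorem centre (M : Model K n) (V : ValuationSubring K) (hV : ∀ c : ℂ, algebraMap ℂ K c ∈ V) :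
    ∃ p, ∀ g ∈ (M.loc p).O, g ∈ V := by
  obtain ⟨u0, hu0, h00⟩ := M.nz
  obtain ⟨u, hu, hm⟩ := Set.exists_max_image M.U V.valuation M.fin ⟨u0, hu0⟩
  have h0 : u ≠ 0 := by
    rintro rfl
    have := hm u0 hu0
    rw [map_zero, le_zero_iff, map_eq_zero] at this
    exact h00 this
  let A : Subalgebra ℂ K :=
    { carrier := V
      mul_mem' := fun ha hb => V.mul_mem _ _ ha hb
      add_mem' := fun ha hb => V.add_mem _ _ ha hb
      algebraMap_mem' := hV }
  have hA : chA M.U u ≤ A := chA_le.2 fun x hx => by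
    change x / u ∈ V
    rw [← V.valuation_le_one_iff, map_div₀]
    exact div_le_one_of_le₀ (hm x hx) zero_le
  have hv : ∀ g ∈ chA M.U u, V.valuation g ≤ 1 := fun g hg =>
    (V.valuation_le_one_iff g).2 (hA hg)
  let P : Ideal (chA M.U u) :=
    { carrier := {g | V.valuation (g : K) < 1}
      add_mem' := fun {a b} ha hb => V.valuation.map_add_lt ha hb
      zero_mem' := by
        change V.valuation (0 : K) < 1
        rw [map_zero]
        exact zero_lt_one
      smul_mem' := fun c x hx => by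
        change V.valuation ((c : K) * x) < 1
        rw [map_mul]
        exact (mul_le_of_le_one_left zero_le (hv c c.2)).trans_lt hx }
  have h1 : (1 : chA M.U u) ∉ P.radical := by
    rintro ⟨k, hk⟩
    rw [one_pow] at hk
    have : V.valuation (1 : K) < 1 := hk
    rw [map_one] at this
    exact lt_irrefl _ this
  obtain ⟨L, hL, hP, -⟩ := exists_locOf_of_notMem (chA_fg M.fin u) h1
  refine ⟨⟨L, u, hu, h0, hL⟩, fun g hg => ?_⟩
  obtain ⟨p, hp, q, hq, h2, e⟩ := hL.frac g hg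
  have h3 : V.valuation q = 1 :=
    le_antisymm (hv q hq) (not_lt.1 fun h => h2 (hP ⟨q, hq⟩ h))
  have h4 := hv p hp
  rw [← e, map_mul, h3, mul_one] at h4
  exact (V.valuation_le_one_iff g).1 h4

end RDEN

open RDEN in
theorem den : StmtDEN := by
  intro K _ _ n M
  refine ⟨fun u t p h => sup_le h.1 (Algebra.adjoin_le ?_), fun u hu h0 t ht t0 f hf => ?_,
    fun u hu h0 t ht t0 u' hu' h0' t' ht' t0' f hf => ?_, centre M⟩
  · rintro _ rfl
    exact (M.loc p).inv_mem t (Loc.mem_of_ev h.2) h.2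
  · refine mem_of_loc (aw_fg (chA_fg M.fin u) t) fun L hL => ?_
    obtain ⟨p, hp, hle⟩ := exists_in M hu h0 ht t0 hL.le
    exact hle (hf p hp)
  · refine mem_of_loc ((aw_fg (chA_fg M.fin u) t).sup (aw_fg (chA_fg M.fin u') t')) fun L hL => ?_
    obtain ⟨p, hp, hle⟩ := exists_in M hu h0 ht t0 (le_sup_left.trans hL.le)
    obtain ⟨p', hp', hle'⟩ := exists_in M hu' h0' ht' t0' (le_sup_right.trans hL.le)
    obtain rfl : p = p' := Model.eq_of_le hle hle'
    exact hle (hf p hp hp')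

end Pool.Agent.MP_ee8c61_ag.M3V
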