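import Pool.Agent.MP_ee8c61_ag.M3V.Spec

/-! Derivations of the function field in coordinates, and the chain rule for Jacobians. -/

namespace Pool.Agent.MP_ee8c61_ag.M3V

open Pool.Agent.MP_96693b_ag.RS

namespace RDER

variable {K : Type} [Field K] [Algebra ℂ K] {n : ℕ}

theorem eq_zero_of_loc (M : Model K n) (b : M.P) {δ : Der K}
    (h : ∀ f ∈ (M.loc b).O, δ f = 0) (g : K) : δ g = 0 := by
  obtain ⟨p, hp, q, hq, h0, e⟩ := Model.frac b g
  have h2 := congrArg δ e
  rw [Derivation.leibniz, h p hp, h q hq, smul_zero, zero_add, smul_eq_mul] at h2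
  exact (mul_eq_zero.1 h2).resolve_left h0

theorem ex_denom (M : Model K n) (b : M.P) (T : Set K) (hT : T.Finite) :
    ∃ s ∈ (M.loc b).O, s ≠ 0 ∧ ∀ t ∈ T, s * t ∈ (M.loc b).O := by
  induction T, hT using Set.Finite.induction_on with
  | empty => exact ⟨1, one_mem _, one_ne_zero, fun _ h => h.elim⟩
  | @insert a T _ _ ih =>
    obtain ⟨s, hs, h0, h⟩ := ih
    obtain ⟨p, hp, q, hq, h1, e⟩ := Model.frac b a
    refine ⟨s * q, mul_mem hs hq, mul_ne_zero h0 h1, ?_⟩
    rintro t (rfl | ht)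
    · rw [mul_assoc, mul_comm q, e]
      exact mul_mem hs hp
    · rw [mul_right_comm]
      exact mul_mem (h t ht) hq

theorem der_eq (M : Model K n) (b : M.P) {κ : Chart K n} (hκ : IsCrd (M.loc b) κ) (δ : Der K)
    (g : K) : δ g = ∑ i, δ (κ.x i) * κ.D i g := by
  obtain ⟨u, -, -, hu⟩ := Model.isPt b
  obtain ⟨s, -, h0, hs⟩ := ex_denom M b (δ '' dvs u M.U) ((M.fin.image _).image _)
  have hlog : s • δ ∈ (M.loc b).log ∅ :=
    hu.mem_log (der_mem_adjoin hu.le fun t ht => hs _ ⟨t, ht, rfl⟩)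
  have key : ∀ g, (δ - ∑ i, δ (κ.x i) • κ.D i) g = δ g - ∑ i, δ (κ.x i) * κ.D i g := by
    intro g
    rw [Derivation.sub_apply, LChart_sum_apply]
    simp only [Derivation.smul_apply, smul_eq_mul]
  rw [← sub_eq_zero, ← key]
  refine eq_zero_of_loc M b (fun f hf => ?_) g
  have h1 := hκ.der_eq hlog hf
  simp only [Derivation.smul_apply, smul_eq_mul, mul_assoc, ← Finset.mul_sum] at h1
  rw [key, mul_left_cancel₀ h0 h1, sub_self]

theorem jac_mul (M : Model K n) (b : M.P) {κ : Chart K n} (hκ : IsCrd (M.loc b) κ)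
    (κ' : Chart K n) (r : Fin n → K) : jac κ' r = jac κ' κ.x * jac κ r := by
  rw [jac, jac, jac, mul_comm, ← Matrix.det_mul]
  congr 1
  ext l i
  simp only [Matrix.mul_apply, Matrix.of_apply]
  rw [der_eq M b hκ (κ'.D i) (r l)]
  exact Finset.sum_congr rfl fun m _ => mul_comm _ _

theorem jac_self {L : Loc K} {κ : Chart K n} (hκ : IsCrd L κ) : jac κ κ.x = 1 := by
  rw [jac, ← Matrix.det_one (n := Fin n)]
  congr 1
  ext l i
  rw [Matrix.of_apply, hκ.dual, Matrix.one_apply]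
  exact if_congr eq_comm rfl rfl

theorem jac_mem {L : Loc K} {κ : Chart K n} (hκ : IsCrd L κ) {r : Fin n → K}
    (hr : ∀ l, r l ∈ L.O) : jac κ r ∈ L.O := by
  rw [jac, Matrix.det_apply']
  exact sum_mem fun σ _ => mul_mem (intCast_mem _ _)
    (prod_mem fun i _ => hκ.pres _ _ (hr _))

end RDER

open RDER in
theorem der : StmtDER := by
  intro K _ _ n M b κ hκ
  refine ⟨der_eq M b hκ, fun i j g => ?_, jac_mul M b hκ, fun κ' hκ' h0 => ?_,
    fun κ' L r => ⟨rfl, ?_⟩⟩
  · rw [← sub_eq_zero, ← Derivation.commutator_apply]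
    refine eq_zero_of_loc M b (fun f hf => ?_) g
    rw [Derivation.commutator_apply, hκ.comm i j hf, sub_self]
  · have h1 := jac_mul M b hκ κ' κ'.x
    rw [jac_self hκ'] at h1
    have h2 := (M.loc b).ev_mul _ (jac_mem hκ' hκ.x_mem) _ (jac_mem hκ hκ'.x_mem)
    rw [← h1, Loc.ev_one, h0, zero_mul] at h2
    exact one_ne_zero h2
  · rw [jac, jac]
    congr 1
    ext l i
    simp [Chart.shift]

end Pool.Agent.MP_ee8c61_ag.M3V
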