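import Pool.Agent.MP_ee8c61_ag.M3V.Spec

/-! Etale coordinates on small basic open sets. -/

namespace Pool.Agent.MP_ee8c61_ag.M3V

open Pool.Agent.MP_96693b_ag.RS H59 Filter

noncomputable section

namespace RETK

variable {K : Type} [Field K] [Algebra ℂ K] {n : ℕ}

theorem le_aw (B : Subalgebra ℂ K) (s : K) : B ≤ aw B s := le_sup_left

theorem inv_mem_aw (B : Subalgebra ℂ K) (s : K) : s⁻¹ ∈ aw B s :=
  (le_sup_right : Algebra.adjoin ℂ {s⁻¹} ≤ aw B s) (Algebra.subset_adjoin rfl)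

theorem aw_le {B A : Subalgebra ℂ K} {s : K} (h : B ≤ A) (hs : s⁻¹ ∈ A) : aw B s ≤ A :=
  sup_le h (Algebra.adjoin_le (Set.singleton_subset_iff.2 hs))

theorem exists_pow {B : Subalgebra ℂ K} {s x : K} (hs : s ∈ B) (h0 : s ≠ 0) (hx : x ∈ aw B s) :
    ∃ k : ℕ, x * s ^ k ∈ B := by
  let C : Subalgebra ℂ K :=
    { carrier := {x | ∃ k : ℕ, x * s ^ k ∈ B}
      mul_mem' := by
        rintro a b ⟨k, hk⟩ ⟨l, hl⟩
        refine ⟨k + l, ?_⟩
        rw [pow_add, mul_mul_mul_comm]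
        exact mul_mem hk hl
      add_mem' := by
        rintro a b ⟨k, hk⟩ ⟨l, hl⟩
        refine ⟨k + l, ?_⟩
        have e : (a + b) * s ^ (k + l) = a * s ^ k * s ^ l + b * s ^ l * s ^ k := by ring
        rw [e]
        exact add_mem (mul_mem hk (pow_mem hs l)) (mul_mem hl (pow_mem hs k))
      algebraMap_mem' := fun r => ⟨0, mul_mem (B.algebraMap_mem r) (pow_mem hs 0)⟩ }
  refine aw_le (A := C) (fun y hy => ⟨0, mul_mem hy (pow_mem hs 0)⟩) ⟨1, ?_⟩ hx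
  rw [pow_one, inv_mul_cancel₀ h0]
  exact one_mem _

theorem exists_den {B : Subalgebra ℂ K} {L : Loc K} (hL : LocOf B L) {F : Set K} (hF : F.Finite)
    (h : ∀ f ∈ F, f ∈ L.O) : ∃ s ∈ B, L.ev s ≠ 0 ∧ ∀ f ∈ F, f * s ∈ B := by
  induction F, hF using Set.Finite.induction_on with
  | empty => exact ⟨1, one_mem _, by rw [Loc.ev_one]; exact one_ne_zero, fun _ h => h.elim⟩
  | @insert a F _ _ ih =>
    obtain ⟨s, hs, h1, h2⟩ := ih fun f hf => h f (Set.mem_insert_of_mem _ hf)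
    obtain ⟨p, hp, q, hq, h3, e⟩ := hL.frac a (h a (Set.mem_insert _ _))
    refine ⟨s * q, mul_mem hs hq, ?_, ?_⟩
    · rw [L.ev_mul _ (hL.le hs) _ (hL.le hq)]
      exact mul_ne_zero h1 h3
    · rintro f (rfl | hf)
      · rw [mul_left_comm, e]
        exact mul_mem hs hp
      · rw [← mul_assoc]
        exact mul_mem (h2 f hf) hq

theorem mem_aw {B : Subalgebra ℂ K} {s f : K} (h0 : s ≠ 0) (h : f * s ∈ B) : f ∈ aw B s := by
  have h1 := mul_mem (le_aw B s h) (inv_mem_aw B s)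
  rwa [mul_inv_cancel_right₀ h0] at h1

theorem der_adjoin {A : Subalgebra ℂ K} {δ : Der K} {G : Set K} (hL : Algebra.adjoin ℂ G ≤ A)
    (h : ∀ g ∈ G, δ g ∈ A) : ∀ f ∈ Algebra.adjoin ℂ G, δ f ∈ A := by
  intro f hf
  induction hf using Algebra.adjoin_induction with
  | mem x hx => exact h x hx
  | algebraMap r => rw [Derivation.map_algebraMap]; exact zero_mem _
  | add x y _ _ hx hy => rw [map_add]; exact add_mem hx hy
  | mul x y hx' hy' hx hy =>
    rw [Derivation.leibniz]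
    exact add_mem (mul_mem (hL hx') hy) (mul_mem (hL hy') hx)

theorem der_aw {B : Subalgebra ℂ K} {δ : Der K} {s : K} (hs : s ∈ B)
    (h : ∀ g ∈ B, δ g ∈ aw B s) : ∀ f ∈ aw B s, δ f ∈ aw B s := by
  have e : aw B s = Algebra.adjoin ℂ ((B : Set K) ∪ {s⁻¹}) := by
    rw [Algebra.adjoin_union, Algebra.adjoin_eq]
    rfl
  intro f hf
  refine der_adjoin e.ge ?_ f (e.le hf)
  rintro g (hg | rfl)
  · exact h g hg
  · rw [Derivation.leibniz_inv, smul_eq_mul]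
    exact mul_mem (neg_mem (pow_mem (inv_mem_aw B s) 2)) (h s hs)

theorem etale_incl {B B0 : Subalgebra ℂ K} {t : K} (ht : t ∈ B) (h0 : t ≠ 0) (h1 : B ≤ B0)
    (h2 : B0 ≤ aw B t) : (Subalgebra.inclusion h2).toRingHom.Etale := by
  let _ : Algebra B0 (aw B t) := (Subalgebra.inclusion h2).toRingHom.toAlgebra
  have hl : IsLocalization.Away (⟨t, h1 ht⟩ : B0) (aw B t) := by
    refine IsLocalization.Away.mk _ ?_ ?_ ?_
    · exact IsUnit.of_mul_eq_one ⟨t⁻¹, inv_mem_aw B t⟩ (Subtype.ext (mul_inv_cancel₀ h0))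
    · intro x
      obtain ⟨k, hk⟩ := exists_pow ht h0 x.2
      exact ⟨k, ⟨_, h1 hk⟩, Subtype.ext rfl⟩
    · intro a b hab
      exact ⟨0, by rw [Subalgebra.inclusion_injective h2 hab]⟩
  exact Algebra.Etale.of_isLocalizationAway (⟨t, h1 ht⟩ : B0)

theorem etale_comp {R B A : Type} [CommRing R] [CommRing B] [CommRing A] (f : R →+* B)
    (g : B →+* A) (t : B) (h : ((algebraMap B (Localization.Away t)).comp f).Etale)
    (hg : g.Etale) (hu : IsUnit (g t)) : (g.comp f).Etale := by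
  let k : Localization.Away t →+* A := IsLocalization.Away.lift t hu
  have e : k.comp (algebraMap B (Localization.Away t)) = g := IsLocalization.Away.lift_comp t hu
  have hk : k.Etale := by
    let _ : Algebra B A := g.toAlgebra
    let _ : Algebra (Localization.Away t) A := k.toAlgebra
    have : IsScalarTower B (Localization.Away t) A := IsScalarTower.of_algebraMap_eq' e.symm
    have : Algebra.Etale B A := hg
    have : Algebra.Etale B (Localization.Away t) := Algebra.Etale.of_isLocalizationAway t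
    exact Algebra.Etale.of_restrictScalars B (Localization.Away t) A
  have h1 := RingHom.Etale.stableUnderComposition _ _ h hk
  rwa [← RingHom.comp_assoc, e] at h1

/-- Evaluation at the point, on a subalgebra of the local ring. -/
def evB {B : Subalgebra ℂ K} (L : Loc K) (hO : B ≤ L.O) : B →ₐ[ℂ] ℂ where
  toFun := fun g => L.ev g
  map_one' := Loc.ev_one
  map_mul' := fun g g' => L.ev_mul _ (hO g.2) _ (hO g'.2)
  map_zero' := Loc.ev_zero
  map_add' := fun g g' => L.ev_add _ (hO g.2) _ (hO g'.2)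
  commutes' := fun r => L.ev_alg r

theorem evB_apply {B : Subalgebra ℂ K} (L : Loc K) (hO : B ≤ L.O) (g : B) :
    evB L hO g = L.ev g := rfl

theorem span_mem {B : Subalgebra ℂ K} {L : Loc K} {κ : Chart K n} (hL : LocOf B L)
    (hκ : IsCrd L κ) (hz : ∀ i, κ.x i ∈ B) (x : B) (hx : L.ev x = 0) :
    ∃ s : B, L.ev s ≠ 0 ∧ s * x ∈ Ideal.span (Set.range fun l => (⟨κ.x l, hz l⟩ : B)) := by
  have h1 : (x : K) ∈ L.span (κ.x '' (Finset.univ : Finset (Fin n))) := by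
    rw [Finset.coe_univ, Set.image_univ, hκ.span]
    exact ⟨hL.le x.2, hx⟩
  obtain ⟨a, ha, ea⟩ := (Loc.mem_span_image _ _).1 h1
  obtain ⟨s, hs, es, hs'⟩ := exists_den hL (Set.finite_range a) (by
    rintro _ ⟨i, rfl⟩
    exact ha i (Finset.mem_univ i))
  refine ⟨⟨s, hs⟩, es, ?_⟩
  have e : (⟨s, hs⟩ : B) * x = ∑ i, (⟨a i * s, hs' _ ⟨i, rfl⟩⟩ : B) * ⟨κ.x i, hz i⟩ := by
    refine Subtype.ext ?_
    push_cast
    rw [ea, Finset.mul_sum]
    exact Finset.sum_congr rfl fun i _ => by ring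
  rw [e]
  exact Ideal.sum_mem _ fun i _ => Ideal.mul_mem_left _ _ (Ideal.subset_span ⟨i, rfl⟩)

theorem etk_of {B A : Subalgebra ℂ K} {z : Fin n → K} (hz : ∀ i, z i ∈ B) (h2 : B ≤ A)
    (h : ((Subalgebra.inclusion h2).toRingHom.comp
      (MvPolynomial.aeval (R := ℂ) fun i => (⟨z i, hz i⟩ : B)).toRingHom).Etale) : EtK z A := by
  refine ⟨fun i => h2 (hz i), ?_⟩
  have e : (MvPolynomial.aeval (R := ℂ) fun i => (⟨z i, h2 (hz i)⟩ : A)) =
      (Subalgebra.inclusion h2).comp (MvPolynomial.aeval (R := ℂ) fun i => (⟨z i, hz i⟩ : B)) :=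
    MvPolynomial.algHom_ext fun i => by
      rw [AlgHom.comp_apply, MvPolynomial.aeval_X, MvPolynomial.aeval_X]
      rfl
  rw [e]
  exact h

theorem core (h : SET) {B : Subalgebra ℂ K} {L : Loc K} {κ : Chart K n} (hB : B.FG)
    (hL : LocOf B L) (hκ : IsCrd L κ) (hz : ∀ i, κ.x i ∈ B) (hD : ∀ i, ∀ f ∈ B, κ.D i f ∈ B) :
    ∃ t ∈ B, L.ev t ≠ 0 ∧ ∀ (A : Subalgebra ℂ K) (h2 : B ≤ A),
      (Subalgebra.inclusion h2).toRingHom.Etale → t⁻¹ ∈ A → EtK κ.x A := by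
  have : Algebra.FiniteType ℂ B := ⟨(Subalgebra.fg_top _).mpr hB⟩
  have hx : ∀ i, L.ev (κ.x i) = 0 := fun i =>
    (Loc.mem_m.1 (hκ.span.le (Loc.subset_span ⟨i, rfl⟩))).2
  obtain ⟨t, e1, het⟩ := h n B (fun i => ⟨κ.x i, hz i⟩)
    (fun i => H95G.RESA.res (κ.D i) (hD i)) (evB L hL.le)
    (fun l m => Subtype.ext (by
      rw [H95G.RESA.res_coe, hκ.dual]
      split_ifs <;> rfl))
    (fun x hx0 => by
      simp only [evB_apply, hx, map_zero, sub_zero]
      exact span_mem hL hκ hz x hx0)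
  refine ⟨t, t.2, e1, fun A h2 hA ht => etk_of hz h2 (etale_comp _ _ t het hA ?_)⟩
  exact IsUnit.of_mul_eq_one ⟨_, ht⟩
    (Subtype.ext (mul_inv_cancel₀ (Loc.ne_zero_of_ev (L := L) e1)))

end RETK

open RETK in
theorem etk (h : SET) : StmtETK := by
  intro K _ _ n B L κ hB hL hκ
  obtain ⟨G, hG⟩ := hB
  have hx : ∀ i, κ.x i ∈ L.O := fun i => (Loc.mem_m.1 (hκ.span.le (Loc.subset_span ⟨i, rfl⟩))).1
  have hGB : ∀ g ∈ G, g ∈ B := fun g hg => hG.le (Algebra.subset_adjoin hg)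
  obtain ⟨s0, hs0, e0, hd⟩ := exists_den hL
    (F := Set.range κ.x ∪ Set.image2 (fun i g => κ.D i g) Set.univ (G : Set K))
    ((Set.finite_range _).union (Set.finite_univ.image2 _ G.finite_toSet)) (by
      rintro f (⟨i, rfl⟩ | ⟨i, -, g, hg, rfl⟩)
      · exact hx i
      · exact hκ.pres i g (hL.le (hGB g hg)))
  have n0 : s0 ≠ 0 := Loc.ne_zero_of_ev e0
  have hO : aw B s0 ≤ L.O := aw_le hL.le (L.inv_mem _ (hL.le hs0) e0)
  have hz : ∀ i, κ.x i ∈ aw B s0 := fun i => mem_aw n0 (hd _ (Or.inl ⟨i, rfl⟩))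
  have hD : ∀ i, ∀ f ∈ aw B s0, κ.D i f ∈ aw B s0 := fun i => der_aw hs0 fun g hg =>
    der_adjoin (hG.le.trans (le_aw B s0))
      (fun g hg => mem_aw n0 (hd _ (Or.inr ⟨i, trivial, g, hg, rfl⟩))) g (hG.ge hg)
  have hfg : (aw B s0).FG := by
    refine Subalgebra.FG.sup ⟨G, hG⟩ ⟨{s0⁻¹}, ?_⟩
    rw [Finset.coe_singleton]
  obtain ⟨t1, ht1, e1, het⟩ := core h hfg (hL.of_le (le_aw B s0) hO) hκ hz hD
  obtain ⟨k, hk⟩ := exists_pow hs0 n0 ht1
  have n1 : t1 ≠ 0 := Loc.ne_zero_of_ev e1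
  refine ⟨s0 * (t1 * s0 ^ k), mul_mem hs0 hk, ?_, fun t ht t0 hs => ?_⟩
  · rw [L.ev_mul _ (hL.le hs0) _ (hL.le hk), L.ev_mul _ (hO ht1) _ (pow_mem (hL.le hs0) k),
      Loc.ev_pow (hL.le hs0)]
    exact mul_ne_zero e0 (mul_ne_zero e1 (pow_ne_zero _ e0))
  have h2 : aw B s0 ≤ aw B t := by
    refine aw_le (le_aw B t) ?_
    have e : s0⁻¹ = (s0 * (t1 * s0 ^ k))⁻¹ * (t1 * s0 ^ k) := by field_simp
    rw [e]
    exact mul_mem hs (le_aw B t hk)
  refine het _ h2 (etale_incl ht t0 (le_aw B s0) h2) ?_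
  have e : t1⁻¹ = (s0 * (t1 * s0 ^ k))⁻¹ * (s0 * s0 ^ k) := by field_simp
  rw [e]
  exact mul_mem hs (le_aw B t (mul_mem hs0 (pow_mem hs0 _)))

end

end Pool.Agent.MP_ee8c61_ag.M3V
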