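import Pool.Agent.MP_ee8c61_ag.M3V.Spec

/-! The vanishing theorem on a model. -/

namespace Pool.Agent.MP_ee8c61_ag.M3V

open Pool.Agent.MP_96693b_ag.RS H59 Filter

variable {K : Type} [Field K] [Algebra ℂ K] {n : ℕ} {L : Loc K} {f g : K}

theorem un_mul (hf : L.ev f ≠ 0) (hg : L.ev g ≠ 0) : L.ev (f * g) ≠ 0 := by
  rw [L.ev_mul _ (Loc.mem_of_ev hf) _ (Loc.mem_of_ev hg)]
  exact mul_ne_zero hf hg

theorem un_inv (hf : L.ev f ≠ 0) : L.ev f⁻¹ ≠ 0 := by
  rw [Loc.ev_inv (Loc.mem_of_ev hf) hf]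
  exact inv_ne_zero hf

theorem un_div (hf : L.ev f ≠ 0) (hg : L.ev g ≠ 0) : L.ev (f / g) ≠ 0 := by
  rw [div_eq_mul_inv]
  exact un_mul hf (un_inv hg)

theorem un_one : L.ev 1 ≠ 0 := by
  rw [Loc.ev_one]
  exact one_ne_zero

theorem un_pow (hf : L.ev f ≠ 0) (k : ℕ) : L.ev (f ^ k) ≠ 0 := by
  rw [Loc.ev_pow (Loc.mem_of_ev hf)]
  exact pow_ne_zero _ hf

theorem un_zpow (hf : L.ev f ≠ 0) (k : ℤ) : L.ev (f ^ k) ≠ 0 := by
  obtain ⟨m, rfl | rfl⟩ := k.eq_nat_or_neg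
  · rw [zpow_natCast]
    exact un_pow hf m
  · rw [zpow_neg, zpow_natCast]
    exact un_inv (un_pow hf m)

theorem un_prod {J : Type} (s : Finset J) (F : J → K) (h : ∀ j ∈ s, L.ev (F j) ≠ 0) :
    L.ev (∏ j ∈ s, F j) ≠ 0 :=
  Finset.prod_induction F (fun x => L.ev x ≠ 0) (fun _ _ => un_mul) un_one h

theorem cl_smul {J : Type} (w : J → ℤ) {e : ℕ} (he : 0 < e) (μ : ℕ) :
    Sys.cl (e • w) (e * μ) = Sys.cl w μ := by
  funext j
  have h : (e : ℚ) ≠ 0 := Nat.cast_ne_zero.2 he.ne'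
  simp only [Sys.cl, Pi.smul_apply, nsmul_eq_mul, Int.cast_mul, Int.cast_natCast, Nat.cast_mul]
  rw [mul_div_mul_left _ _ h]

theorem kvm (h1 : StmtDER) (h2 : StmtSYS) (h3 : SKVG) : StmtKVM := by
  intro K _ _ n M J _ y w μ r h η hy hw hμ hη g hg
  obtain ⟨ι, _, S, I, c, ρ, e, he, hF, hP, hQ⟩ :=
    h2 K n M J y w (fun a b => (g a - g b) * η b ∈ (M.loc b).O) hy hw hg
  obtain ⟨i0, hr⟩ := hF.ref
  have : Nonempty ι := ⟨i0⟩
  let κ : ι → Chart K n := fun i => ⟨S.z i, S.D i⟩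
  obtain ⟨p0, hp0⟩ := hF.ne i0
  have e0 : ∀ κ' : Chart K n, jac κ' r = jac κ' (S.z i0) * jac (κ i0) r := fun κ' => by
    have a1 := (h1 K n M p0 _ (hF.crd i0 p0 hp0)).2.2.1 κ' r
    obtain ⟨q, hq⟩ := M.exists_crd p0
    have a2 : jac κ' ((κ i0).shift (M.loc p0)).x = jac κ' (S.z i0) := by
      simp only [jac, Chart.shift, map_sub, Derivation.map_algebraMap, sub_zero, κ]
    exact a1.trans (by rw [a2]; rfl)
  set H := h * jac (κ i0) r with hH
  let θ : ι → K := fun i => H * (Matrix.of fun l k => S.D i k (S.r l)).det *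
    (S.mon i (Sys.cl (e • w) (e * μ)) : Kˣ)
  have key : ∀ i p, I i p → (M.loc p).ev (η p / θ i) ≠ 0 := fun i p hp => by
    obtain ⟨κ', hκ', a1⟩ := hη p
    have a2 := (h1 K n M p _ (hF.crd i p hp)).2.2.2.1 κ' hκ'
    have a3 := (h1 K n M p _ (hF.crd i p hp)).2.2.1 κ' (S.z i0)
    have a4 : (M.loc p).ev (∏ j, (y p j / (S.η i j : K)) ^ Sys.cl w μ j) ≠ 0 :=
      un_prod _ _ fun j _ => un_zpow (hF.eqn i p hp j) _
    have a5 := un_mul (un_mul a1 a2) a4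
    have a6 : ((S.mon i (Sys.cl (e • w) (e * μ)) : Kˣ) : K) =
        ∏ j, (S.η i j : K) ^ Sys.cl w μ j := by
      rw [cl_smul w he, Sys.mon, Units.coe_prod]
      simp only [Units.val_zpow_eq_zpow_val]
    have a7 : (Matrix.of fun l k => S.D i k (S.r l)).det =
        jac ((κ i).shift (M.loc p)) (S.z i0) := by rw [hr]; rfl
    have b1 : h * jac κ' r * monE y (Sys.cl w μ) p ≠ 0 := fun h0 => a1 (by
      rw [h0, div_zero, Loc.ev_zero])
    have b2 : monE y (Sys.cl w μ) p ≠ 0 := right_ne_zero_of_mul b1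
    have b3 := Loc.ne_zero_of_ev a2
    refine fun h0 => a5 (Eq.trans (congrArg _ ?_) h0)
    simp only [θ, div_zpow, Finset.prod_div_distrib]
    rw [a6, a7, hH, e0 κ', a3]
    change _ / (_ * _ * monE y (Sys.cl w μ) p) * _ * (monE y (Sys.cl w μ) p / _) = _
    simp only [κ]
    field_simp
  have θ0 : ∀ i, θ i ≠ 0 := fun i h0 => by
    obtain ⟨p, hp⟩ := hF.ne i
    exact key i p hp (by rw [h0, div_zero, Loc.ev_zero])
  have H0 : H ≠ 0 := left_ne_zero_of_mul (left_ne_zero_of_mul (θ0 i0))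
  obtain ⟨t, ht1, ht2⟩ := h3 K ι J n 0 S _ _ ρ (e * μ) hF.et hF.cl hP (Nat.mul_pos he hμ)
    (fun i i' => (g (c i) - g (c i')) * H) (fun i i' => hF.den i i' _ fun p hp hp' => by
      have a1 := sub_mem (hQ i p hp) (hQ i' p hp')
      have a2 := key i p hp
      have a3 := mul_mem a1 (Loc.mem_of_ev (un_inv a2))
      have a4 : η p ≠ 0 := (div_ne_zero_iff.1 (Loc.ne_zero_of_ev a2)).1
      have e1 : (g (c i) - g (c i')) * H * (Matrix.of fun l k => S.D i k (S.r l)).det *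
          (S.mon i (Sys.cl (e • w) (e * μ)) : Kˣ) =
          ((g (c i) - g p) * η p - (g (c i') - g p) * η p) * (η p / θ i)⁻¹ := by
        rw [inv_div]
        simp only [θ]
        field_simp
        ring
      rwa [e1]) (fun a b c => by ring)
  refine ⟨g (c i0) - t i0 / H, fun p => ?_⟩
  obtain ⟨i, hp⟩ := hF.cov p
  have a1 := sub_mem (hQ i p hp) (mul_mem (hF.le i p hp (ht1 i)) (Loc.mem_of_ev (key i p hp)))
  have a2 := ht2 i0 i
  have a3 := θ0 i
  have e1 : (g (c i0) - t i0 / H - g p) * η p = (g (c i) - g p) * η p -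
      t i * (Matrix.of fun l k => S.D i k (S.r l)).det *
        (S.mon i (Sys.cl (e • w) (e * μ)) : Kˣ) * (η p / θ i) := by
    have a4 : t i0 = (g (c i0) - g (c i)) * H + t i := by rw [a2]; ring
    have a5 := right_ne_zero_of_mul (left_ne_zero_of_mul a3)
    have a6 := right_ne_zero_of_mul a3
    rw [a4]
    simp only [θ]
    field_simp
    ring
  rwa [e1]

end Pool.Agent.MP_ee8c61_ag.M3V
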