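import Pool.Agent.MP_ee8c61_ag.M3V.Spec
import Pool.Agent.MP_ee8c61_ag.H59.RVal

/-! The polarized system of charts of a smooth projective model. -/

namespace Pool.Agent.MP_ee8c61_ag.M3V

open Pool.Agent.MP_96693b_ag.RS H59 Filter

namespace RSYS

variable {K : Type} [Field K] [Algebra ℂ K] {L : Loc K} {f g : K}

theorem u_mul (hf : L.ev f ≠ 0) (hg : L.ev g ≠ 0) : L.ev (f * g) ≠ 0 := by
  rw [L.ev_mul _ (Loc.mem_of_ev hf) _ (Loc.mem_of_ev hg)]
  exact mul_ne_zero hf hg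

theorem u_inv (hf : L.ev f ≠ 0) : L.ev f⁻¹ ≠ 0 := by
  rw [Loc.ev_inv (Loc.mem_of_ev hf) hf]
  exact inv_ne_zero hf

theorem u_div (hf : L.ev f ≠ 0) (hg : L.ev g ≠ 0) : L.ev (f / g) ≠ 0 := by
  rw [div_eq_mul_inv]
  exact u_mul hf (u_inv hg)

theorem u_zpow (hf : L.ev f ≠ 0) (k : ℤ) : L.ev (f ^ k) ≠ 0 := by
  have h : ∀ m : ℕ, L.ev (f ^ m) ≠ 0 := fun m => by
    rw [Loc.ev_pow (Loc.mem_of_ev hf)]
    exact pow_ne_zero _ hf
  cases k with
  | ofNat m => simpa using h m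
  | negSucc m =>
    rw [zpow_negSucc]
    exact u_inv (h _)

theorem u_prod {J : Type} [Fintype J] {F : J → K} (h : ∀ j, L.ev (F j) ≠ 0) :
    L.ev (∏ j, F j) ≠ 0 := by
  rw [Loc.ev_prod _ _ fun j _ => Loc.mem_of_ev (h j)]
  exact Finset.prod_ne_zero_iff.2 fun j _ => h j

theorem u_swap {a : K} (hf : L.ev (a / f) ≠ 0) (hg : L.ev (a / g) ≠ 0) : L.ev (g / f) ≠ 0 := by
  have h := u_div hf hg
  rwa [div_div_div_cancel_left' _ _ (div_ne_zero_iff.1 (Loc.ne_zero_of_ev hf)).1] at h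

theorem cl_of {ι J : Type} {n : ℕ} (S : Sys ℂ K ι J n) (i₀ : ι) (hr : ∀ l, S.r l ∈ S.A i₀)
    (hR : ∀ l c, ∀ g ∈ S.A c, S.R l g ∈ S.A c ⊔ S.A i₀)
    (hD : ∀ a i l, S.D a i (S.r l) ∈ S.A a ⊔ S.A i₀) : H95G.RESA.Cl S (H95G.RESA.om S) := by
  have hA : ∀ a, S.A a ≤ H95G.RESA.om S := fun a g hg => Algebra.subset_adjoin (Or.inl ⟨a, hg⟩)
  have hi : ∀ a j, (((S.η a j)⁻¹ : Kˣ) : K) ∈ H95G.RESA.om S := fun a j =>
    Algebra.subset_adjoin (Or.inr ⟨a, j, rfl⟩)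
  have h : ∀ l, ∀ g ∈ H95G.RESA.om S, S.R l g ∈ H95G.RESA.om S := fun l g hg => by
    induction hg using Algebra.adjoin_induction with
    | mem g hg =>
      rcases hg with ⟨c, hg⟩ | ⟨c, j, rfl⟩
      · exact sup_le (hA c) (hA i₀) (hR l c g hg)
      · rw [Units.val_inv_eq_inv_val, Derivation.leibniz_inv, smul_eq_mul,
          ← Units.val_inv_eq_inv_val]
        exact mul_mem (neg_mem (pow_mem (hi c j) 2))
          (sup_le (hA c) (hA i₀) (hR l c _ (H95G.RESA.η_in S c j)))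
    | algebraMap t => rw [Derivation.map_algebraMap]; exact zero_mem _
    | add g g' _ _ h1 h2 => rw [map_add]; exact add_mem h1 h2
    | mul g g' hg hg' h1 h2 =>
      rw [Derivation.leibniz, smul_eq_mul, smul_eq_mul]
      exact add_mem (mul_mem hg h2) (mul_mem hg' h1)
  refine ⟨hA, fun a j => ⟨hA a (H95G.RESA.η_in S a j), hi a j⟩, fun l => hA i₀ (hr l), h,
    fun c i g hg => ?_⟩
  rw [S.D_R]
  exact sum_mem fun l _ => mul_mem (sup_le (hA c) (hA i₀) (hD c i l)) (h l g hg)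

end RSYS

open RSYS

theorem sys (h1 : StmtDEN) (h2 : StmtDER) (h3 : StmtETK) (h4 : StmtATL) : StmtSYS := by
  intro K _ _ n M J _ y w Q hy hamp hQ
  obtain ⟨d1, d2, d3, d4⟩ := h1 K n M
  choose u hu hu0 hloc using fun b : M.P => Model.isPt b
  choose κ σ hκ hσ hyκ using hy.2
  choose s hs hs0 het using fun b : M.P =>
    h3 K n _ (M.loc b) (κ b) (chA_fg M.fin (u b)) (hloc b) (hκ b)
  have hcoh : CohE M (monE y w) := fun a => by
    filter_upwards [eventually_all.2 fun j => hy.1 j a] with b hb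
    have e : monE y w a / monE y w b = ∏ j, (y a j / y b j) ^ w j := by
      simp only [monE, div_zpow, Finset.prod_div_distrib]
    rw [e]
    exact u_prod fun j => u_zpow (hb j) _
  obtain ⟨ι, _, c, t, ρ, e, hA⟩ := h4 K n M (monE y w) u
    (fun a p => Q a p ∧ (M.loc p).ev (s a) ≠ 0 ∧ (∀ i, (κ a).x i ∈ (M.loc p).O) ∧
      IsCrd (M.loc p) ((κ a).shift (M.loc p)) ∧
        ∀ j, (M.loc p).ev (y p j / (κ a).y (σ a j)) ≠ 0) hcoh hamp
    (fun b => ⟨hu b, hu0 b, (hloc b).le⟩) fun a => by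
      filter_upwards [hQ a, zn_ne (hs0 a), eventually_all.2 fun i => Model.sp_mem ((hκ a).x_mem i),
        Model.sp_crd (hκ a), eventually_all.2 fun j => hy.1 j a,
        eventually_all.2 fun j => zn_ne (hyκ a j)] with p q1 q2 q3 q4 q5 q6
      exact ⟨q1, q2, q3, q4, fun j => u_swap (q6 j) (q5 j)⟩
  obtain ⟨p₀⟩ : Nonempty M.P := inferInstance
  obtain ⟨i₀, -⟩ := hA.cov p₀
  let A : ι → Subalgebra ℂ K := fun i => aw (chA M.U (u (c i))) (t i)
  let I : ι → M.P → Prop := fun i p => In M (u (c i)) (t i) p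
  have ht0 : ∀ i, t i ≠ 0 := fun i => Loc.ne_zero_of_ev (hA.ctr i).2
  have le : ∀ i p, I i p → A i ≤ (M.loc p).O := fun i p h => d1 _ _ p h
  have e1 : ∀ i f, (∀ p, I i p → f ∈ (M.loc p).O) → f ∈ A i := fun i =>
    d2 _ (hu _) (hu0 _) _ (hA.mem i) (ht0 i)
  have e2 : ∀ i i' f, (∀ p, I i p → I i' p → f ∈ (M.loc p).O) → f ∈ A i ⊔ A i' := fun i i' =>
    d3 _ (hu _) (hu0 _) _ (hA.mem i) (ht0 i) _ (hu _) (hu0 _) _ (hA.mem i') (ht0 i')
  have hρ0 : ∀ i, ρ i ≠ 0 := fun i =>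
    left_ne_zero_of_mul (Loc.ne_zero_of_ev (hA.gen i _ (hA.ctr i)))
  have hy0 : ∀ a j, (κ a).y (σ a j) ≠ 0 := fun a j =>
    (div_ne_zero_iff.1 (Loc.ne_zero_of_ev (hyκ a j))).2
  have hz : ∀ a i, (κ (c a)).x i ∈ A a := fun a i => e1 a _ fun p hp => (hA.sub a p hp).2.2.1 i
  have hD : ∀ a i p, I a p → ∀ g ∈ (M.loc p).O, (κ (c a)).D i g ∈ (M.loc p).O :=
    fun a i p hp => (hA.sub a p hp).2.2.2.1.pres i
  have hDA : ∀ a i, ∀ g ∈ A a, (κ (c a)).D i g ∈ A a := fun a i g hg =>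
    e1 a _ fun p hp => hD a i p hp g (le a p hp hg)
  have hDz : ∀ a b i l, (κ (c a)).D i ((κ (c b)).x l) ∈ A a ⊔ A b := fun a b i l =>
    e2 a b _ fun p hp hq => hD a i p hp _ (le b p hq (hz b l))
  let r : ι → Kˣ := fun i => Units.mk0 (ρ i) (hρ0 i)
  have hr : ∀ a b, ((r a / r b : Kˣ) : K) = ρ a / ρ b := fun a b => Units.val_div_eq_div_val _ _
  have hmem : ∀ a b, ((r a / r b : Kˣ) : K) ∈ A b := fun a b => e1 b _ fun p hp => by
    have h := hA.gen b p hp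
    rw [hr, ← mul_div_mul_right _ _ (right_ne_zero_of_mul (Loc.ne_zero_of_ev h))]
    exact Loc.div_mem (hA.sec a p) (hA.sec b p) h
  have hl : ∀ a b, ∀ g ∈ A a, ∃ k : ℕ, (((r a / r b) ^ k : Kˣ) : K) * g ∈ A b := fun a b g hg => by
    obtain ⟨k, hk⟩ := hA.loc a b g hg
    exact ⟨k, by rwa [Units.val_pow_eq_pow_val, hr]⟩
  let S : Sys ℂ K ι J n :=
    { r := (κ (c i₀)).x
      R := (κ (c i₀)).D
      A := A
      z := fun a => (κ (c a)).x
      D := fun a => (κ (c a)).D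
      lab := fun a => σ (c a)
      η := fun a j => Units.mk0 _ (hy0 (c a) j)
      R_r := (hκ _).dual
      R_comm := (h2 K n M _ _ (hκ (c i₀))).2.1
      D_z := fun a => (hκ _).dual
      D_R := fun a i => (h2 K n M _ _ (hκ (c i₀))).1 _
      z_mem := hz
      D_mem := hDA
      lab_inj := fun a => hσ _
      η_some := fun a j i h => congrArg (κ (c a)).y h
      η_none := fun a j h => Units.ext (congrArg (κ (c a)).y h)
      η_mem := fun a b j => e2 a b _ fun p hp hq => by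
        rw [Units.val_div_eq_div_val]
        exact Loc.mem_of_ev (u_swap ((hA.sub b p hq).2.2.2.2 j) ((hA.sub a p hp).2.2.2.2 j))
      loc := fun a b g hg => by
        obtain ⟨k, hk⟩ := hl b a g hg
        refine ⟨_, ?_, (le_sup_right : A b ≤ _) ?_, hk⟩
        · rw [Units.val_pow_eq_pow_val]
          exact pow_mem (hmem b a) k
        · rw [← inv_pow, inv_div, Units.val_pow_eq_pow_val]
          exact pow_mem (hmem a b) k }
  refine ⟨ι, inferInstance, S, I, c, r, e, hA.pos,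
    ⟨fun a => ?_, cl_of S i₀ (hz i₀) (fun l a g hg => ?_) fun a i l => hDz a i₀ i l, hA.cov,
      fun i => ⟨_, hA.ctr i⟩, le, fun i p hp => (hA.sub i p hp).2.2.2.2,
      fun i p hp => (hA.sub i p hp).2.2.2.1, e2, i₀, rfl⟩,
    ⟨fun _ l => l.elim0, hmem, hl, fun a => ?_, fun a g hg => ?_⟩,
    fun i p hp => (hA.sub i p hp).1⟩
  · exact (het (c a) (t a) (hA.mem a) (ht0 a) (e1 a _ fun p hp =>
      Loc.mem_of_ev (u_inv (hA.sub a p hp).2.1))).2
  · change (κ (c i₀)).D l g ∈ A a ⊔ A i₀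
    rw [(h2 K n M _ _ (hκ (c a))).1 _ g]
    exact sum_mem fun i _ => mul_mem (sup_comm (A i₀) (A a) ▸ hDz i₀ a l i)
      ((le_sup_left : A a ≤ _) (hDA a i g hg))
  · have h : ∀ p, I a p → (M.loc p).ev ((r a * S.mon a (e • w) : Kˣ) : K) ≠ 0 := fun p hp => by
      have q := (hA.sub a p hp).2.2.2.2
      have q0 : ∀ j, y p j ≠ 0 := fun j => (div_ne_zero_iff.1 (Loc.ne_zero_of_ev (q j))).1
      have h5 := u_div (hA.gen a p hp) (u_prod fun j => u_zpow (q j) ((e • w) j))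
      have h6 : monE y w p ^ e = ∏ j, y p j ^ (e • w) j := by
        rw [monE, ← Finset.prod_pow]
        refine Finset.prod_congr rfl fun j _ => ?_
        rw [Pi.smul_apply, nsmul_eq_mul, mul_comm, zpow_mul, zpow_natCast]
      have h7 : (∏ j, y p j ^ (e • w) j) ≠ 0 :=
        Finset.prod_ne_zero_iff.2 fun j _ => zpow_ne_zero _ (q0 j)
      simp only [div_zpow, Finset.prod_div_distrib] at h5
      rw [h6, div_div_eq_mul_div, mul_right_comm, mul_div_cancel_right₀ _ h7] at h5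
      simpa [Sys.mon, r, S] using h5
    refine ⟨e1 a _ fun p hp => Loc.mem_of_ev (h p hp), e1 a _ fun p hp => ?_⟩
    rw [Units.val_inv_eq_inv_val]
    exact Loc.mem_of_ev (u_inv (h p hp))
  · refine ValX.crit (RingHom.id K) Function.injective_id g fun V hV => ?_
    obtain ⟨p, hp⟩ := d4 V fun c => hV ⟨_, Subalgebra.algebraMap_mem _ c⟩
    obtain ⟨b, hb⟩ := hA.cov p
    obtain ⟨k, hk⟩ := hl a b g hg
    have h := mul_mem (pow_mem (hV ⟨_, Algebra.subset_adjoin (Or.inr ⟨b, rfl⟩)⟩) k)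
      (hp _ (le b p hb hk))
    have e3 : ((r b / r a : Kˣ) : K) ^ k * ((((r a / r b) ^ k : Kˣ) : K) * g) = g := by
      rw [← Units.val_pow_eq_pow_val, ← mul_assoc, ← Units.val_mul, ← mul_pow, div_mul_div_cancel,
        div_self', one_pow, Units.val_one, one_mul]
    rw [← e3]
    exact h

end Pool.Agent.MP_ee8c61_ag.M3V
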