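import Pool.Agent.MP_ee8c61_ag.M3V.Spec
import Pool.Agent.MP_ee8c61_ag.M3S.SpecF

/-! Vanishing on surfaces: the statements. -/

namespace Pool.Agent.MP_ee8c61_ag.M3V

open Pool.Agent.MP_96693b_ag.RS M3S

/-- Vanishing for a numerically ample class on a good model. -/
def VanH {K : Type} [Field K] [Algebra ℂ K] (M : Model K 2) : Prop :=
  ∀ (J : Finset (Crv M)) (L Δ : Dr M) (η : M.P → K), SncC (J : Set (Crv M)) → IsInt L →
    (∀ C, C ∉ J → (L - KD M) C = 0) → M3SN.IsQ Δ → (∀ C, C ∉ J → Δ C = 0) → 0 ≤ Δ →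
    (∀ C, Δ C < 1) → Pos (L - KD M - Δ) → (∀ p, Eqn L p (η p)) → ML M η

/-- Vanishing for a nef and big class on any model. -/
def KvN {K : Type} [Field K] [Algebra ℂ K] (M : Model K 2) : Prop :=
  ∀ (J : Set (Crv M)) (L Δ : Dr M) (η : M.P → K), SncC J → IsInt L → M3SN.IsQ Δ →
    (∀ C, C ∉ J → Δ C = 0) → 0 ≤ Δ → (∀ C, Δ C < 1) → Nef (L - KD M - Δ) →
    0 < II M (L - KD M - Δ) (L - KD M - Δ) → (∀ p, Eqn L p (η p)) → ML M η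

/-- Numerically ample classes are ample. -/
def SAMP : Prop := ∀ (K : Type) [Field K] [Algebra ℂ K] (S : M3SN.NS K), S.OK → ∀ X,
  M3SN.IsQ X → S.Pos X → ∃ μ m : ℕ, 0 < μ ∧ 0 < m ∧ M3SN.IsZ ((μ : ℝ) • X) ∧
    S.Bpf ((μ : ℝ) • X - (m : ℝ) • S.w)

/-- The index theorem. -/
def SHOD : Prop := ∀ (K : Type) [Field K] [Algebra ℂ K] (S : M3SN.NS K), S.OK → ∀ D,
  M3SN.IsZ D → S.I D S.w = 0 → S.I D D ≤ 0

/-- Perturbation of a nef and big class. -/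
def SNUL : Prop := ∀ (K : Type) [Field K] [Algebra ℂ K] (S : M3SN.NS K), S.OK → ∀ N,
  M3SN.IsQ N → M3SN.Nef S.I N → 0 < S.I N N → {C | S.I N (M3SN.cv C) = 0}.Finite ∧
    ∃ G, M3SN.IsZ G ∧ 0 ≤ G ∧ (∀ C, S.I N (M3SN.cv C) ≠ 0 → G C = 0) ∧
      ∃ e : ℝ, 0 < e ∧ ∀ t : ℝ, 0 < t → t ≤ e → S.Pos (N - t • G)

def StmtVANH : Prop := All VanH

def StmtKVN : Prop := All KvN

end Pool.Agent.MP_ee8c61_ag.M3V
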