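import Pool.Agent.MP_ee8c61_ag.M3V.RKVM
import Pool.Agent.MP_ee8c61_ag.M3S.Defs

/-! Vanishing on a surface: restriction to a curve is onto. -/

namespace Pool.Agent.MP_ee8c61_ag.M3V

open Pool.Agent.MP_96693b_ag.RS Pool.Agent.MP_cce4c9_lc.H87 M3S WithZero Finsupp Filter

variable {K : Type} [Field K] [Algebra ℂ K]

/-- The local facts that are used. -/
structure LF (M : Model K 2) : Prop where
  eqn : ∀ (C : Crv M) p, ∃ η, Eqn (pr C) p η
  har : ∀ p f, (∀ C : Crv M, On C p → C.1.val f ≤ 1) → f ∈ (M.loc p).O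
  off : ∀ (C : Crv M) a, ¬ On C a → ∀ᶠ b in zn a, ¬ On C b
  fin : ∀ f : K, (Function.support fun C : Crv M => (C.1.ord f : ℝ)).Finite
  isW : IsW (wD M)
  isK : IsK (r0 K) (KD M)

variable {M : Model K 2} {D D' : Dr M} {p : M.P} {η η' f : K} {C : Crv M}

theorem eq_mul (h : Eqn D p η) (h' : Eqn D' p η') : Eqn (D + D') p (η * η') :=
  ⟨mul_ne_zero h.1 h'.1, fun C hC => by
    rw [C.1.ord_mul (C.1.val_ne h.1) (C.1.val_ne h'.1), Int.cast_add, h.2 C hC, h'.2 C hC]; rfl⟩

theorem eq_zpow (h : Eqn D p η) (k : ℤ) : Eqn ((k : ℝ) • D) p (η ^ k) :=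
  ⟨zpow_ne_zero _ h.1, fun C hC => by rw [C.1.ord_zpow, Int.cast_mul, h.2 C hC]; rfl⟩

theorem eq_pow (h : Eqn D p η) (k : ℕ) : Eqn ((k : ℝ) • D) p (η ^ k) := by
  simpa using eq_zpow h k

theorem eq_inv (h : Eqn D p η) : Eqn (-D) p η⁻¹ := by simpa using eq_zpow h (-1)

theorem eq_one : Eqn (0 : Dr M) p 1 := ⟨one_ne_zero, fun C _ => by simp⟩

theorem eq_val (h : Eqn D p η) (hC : On C p) {k : ℤ} (hk : D C = k) : C.1.val η = exp (-k) := by
  have := (h.2 C hC).trans hk
  rw [C.1.val_eq (C.1.val_ne h.1), Int.cast_injective this]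

theorem LF.dvr_apply (lf : LF M) (f : K) (C : Crv M) : dvr M f C = C.1.ord f := by
  rw [dvr, dif_pos (lf.fin f)]
  rfl

theorem LF.eq_dvr (lf : LF M) (hf : f ≠ 0) : Eqn (dvr M f) p f :=
  ⟨hf, fun C _ => (lf.dvr_apply f C).symm⟩

theorem LF.unit (lf : LF M) (h : Eqn (0 : Dr M) p η) : (M.loc p).ev η ≠ 0 := by
  have a : ∀ {x : K}, Eqn (0 : Dr M) p x → x ∈ (M.loc p).O := fun hx =>
    lf.har p _ fun C hC => (eq_val hx hC (k := 0) (by simp)).le
  have := (M.loc p).ev_mul _ (a h) _ (a (neg_zero (G := Dr M) ▸ eq_inv h))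
  rw [mul_inv_cancel₀ h.1, Loc.ev_one] at this
  exact left_ne_zero_of_mul_eq_one this.symm

theorem LF.div_unit (lf : LF M) (h : Eqn D p η) (h' : Eqn D p η') :
    (M.loc p).ev (η / η') ≠ 0 := by
  rw [div_eq_mul_inv]
  exact lf.unit (add_neg_cancel D ▸ eq_mul h (eq_inv h'))

theorem LF.coh (lf : LF M) {a : M.P} (h : Eqn D a η) : ∀ᶠ b in zn a, Eqn D b η := by
  have h1 : ∀ᶠ b in zn a, ∀ C ∈ (dvr M η - D).support, ¬ On C b :=
    (eventually_all_finset _).2 fun C hC => lf.off C a fun h0 => mem_support_iff.1 hC (by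
      rw [Finsupp.sub_apply, lf.dvr_apply, h.2 C h0, sub_self])
  filter_upwards [h1] with b hb
  refine ⟨h.1, fun C hC => ?_⟩
  by_contra h0
  exact hb C (mem_support_iff.2 (by
    rw [Finsupp.sub_apply, lf.dvr_apply]; exact sub_ne_zero.2 h0)) hC

theorem LF.cohE (lf : LF M) {η : M.P → K} (h : ∀ p, Eqn D p (η p)) : CohE M η := fun a => by
  filter_upwards [lf.coh (h a)] with b hb
  exact lf.div_unit hb (h b)

theorem eq_monE {J : Finset (Crv M)} {y : M.P → J → K} (hy : ∀ p j, Eqn (pr j.1) p (y p j))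
    {c : J → ℤ} (h0 : ∀ C ∉ J, D C = 0) (h1 : ∀ j : J, D j = c j) (p : M.P) :
    Eqn D p (monE y c p) := by
  classical
  have e : D = ∑ j : J, (c j : ℝ) • pr j.1 := by
    ext C
    rw [Finsupp.finsetSum_apply]
    by_cases hC : C ∈ J
    · rw [Finset.sum_eq_single ⟨C, hC⟩ (fun j _ hj => by
        rw [Finsupp.smul_apply, single_eq_of_ne' fun e => hj (Subtype.ext e), smul_zero])
        (by simp), ← h1]
      simp
    · rw [h0 C hC, Finset.sum_eq_zero fun j _ => by
        rw [Finsupp.smul_apply, single_eq_of_ne' (fun e : j.1 = C => hC (e ▸ j.2)), smul_zero]]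
  rw [e, monE]
  induction (Finset.univ : Finset J) using Finset.induction_on with
  | empty => simpa using eq_one
  | insert j s hj ih =>
    rw [Finset.sum_insert hj, Finset.prod_insert hj]
    exact eq_mul (eq_zpow (hy p j) _) ih

theorem LF.exists_eqn (lf : LF M) (hD : IsInt D) (p : M.P) : ∃ η, Eqn D p η := by
  choose y hy using fun (p : M.P) (j : D.support) => lf.eqn j.1 p
  choose c hc using hD
  exact ⟨_, eq_monE hy (c := fun j => c j) (fun _ => notMem_support_iff.1) (fun j => hc j) p⟩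

theorem LF.sncE (lf : LF M) {J : Finset (Crv M)} (hJ : SncC (J : Set (Crv M)))
    {y : M.P → J → K} (hy : ∀ p j, Eqn (pr j.1) p (y p j)) : SncE M y := by
  classical
  refine ⟨fun j => lf.cohE fun p => hy p j, fun b => ?_⟩
  obtain ⟨κ, hκ, h⟩ := hJ b
  choose σ hσ using h
  refine ⟨κ, fun j => if h : On j.1 b then some (σ j.1 j.2 h) else none, hκ, fun j j' i a a' => ?_,
    fun j => ?_⟩
  · by_cases h : On j.1 b
    · by_cases h' : On j'.1 b
      · simp only [dif_pos h, Option.some_inj] at a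
        simp only [dif_pos h', Option.some_inj] at a'
        have b1 := (hσ j.1 j.2 h).2 j.1 h
        have b2 := (hσ j'.1 j'.2 h').2 j.1 h
        rw [a', ← a, b1, single_eq_same] at b2
        by_contra hne
        rw [single_eq_of_ne fun e => hne (Subtype.ext e)] at b2
        exact one_ne_zero b2
      · simp [h'] at a'
    · simp [h] at a
  · by_cases h : On j.1 b
    · simp only [dif_pos h]
      exact lf.div_unit (hy b j) (hσ j.1 j.2 h)
    · simp only [dif_neg h]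
      exact lf.div_unit (hy b j) ⟨one_ne_zero, fun C hC => by
        rw [single_eq_of_ne (fun e : C = j.1 => h (e ▸ hC))]; simp [Chart.y]⟩

theorem LF.vamp (lf : LF M) {η : M.P → K} (h : ∀ p, Eqn D p (η p)) {m : ℕ} (hm : 0 < m)
    (hb : Bpf (D - (m : ℝ) • wD M)) : VAmp M η := by
  refine ⟨m, hm, fun b => ?_⟩
  obtain ⟨s, hs, hs'⟩ := hb b
  have a : ∀ p, ∀ u ∈ M.U, u ≠ 0 → chA M.U u ≤ (M.loc p).O →
      Eqn (D - (m : ℝ) • wD M) p (u ^ m * η p) := fun p u hu h0 hp => by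
    have := eq_mul (eq_inv (eq_pow (lf.isW u hu h0 p hp) m)) (h p)
    rwa [inv_pow, inv_inv, neg_add_eq_sub] at this
  refine ⟨s, fun p u hu h0 hp => lf.har p _ fun C hC => ?_, fun u hu h0 hp => ?_⟩
  · have b1 := a p u hu h0 hp
    have b2 := (mem_H0 hs'.1).1 hs C
    rw [← b1.2 C hC] at b2
    rw [mul_assoc, C.1.val_le_one (C.1.val_ne (mul_ne_zero hs'.1 b1.1)),
      C.1.ord_mul (C.1.val_ne hs'.1) (C.1.val_ne b1.1)]
    exact_mod_cast b2
  · rw [mul_assoc]
    exact lf.unit (neg_add_cancel (D - (m : ℝ) • wD M) ▸ eq_mul hs' (a b u hu h0 hp))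

theorem LF.onto (lf : LF M) (hD : IsInt D) {η' : M.P → K} (h' : ∀ p, Eqn (D - pr C) p (η' p))
    (hM : ML M η') : Onto D C := by
  classical
  intro h hh s hs
  choose d hd using hD
  choose η hη using lf.exists_eqn (D := D) fun C => ⟨d C, hd C⟩
  have vh : C.1.val h = exp (d C) := by
    have := hh.2
    rw [hd, ← Int.cast_neg] at this
    rw [C.1.val_eq (C.1.val_ne hh.1), Int.cast_injective this, neg_neg]
  have v1 : ∀ p C', On C' p → C' ≠ C → C'.1.val (η' p) = exp (-d C') := fun p C' a b =>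
    eq_val (h' p) a (by rw [Finsupp.sub_apply, single_eq_of_ne b, sub_zero, hd])
  have v2 : ∀ p, On C p → C.1.val (η' p) = exp (-(d C - 1)) := fun p a =>
    eq_val (h' p) a (by rw [Finsupp.sub_apply, single_eq_same, hd]; simp)
  have v3 : ∀ x, C.1.val x ≤ exp (d C) → C.1.val (x / h) ≤ 1 := fun x hx => by
    rw [map_div₀, vh]
    exact div_le_one_of_le₀ hx zero_le'
  have v4 : ∀ x, C.1.val (x / h) < 1 ↔ ∀ p, On C p → C.1.val (x * η' p) ≤ 1 := fun x => by
    obtain ⟨p, hp, -⟩ := C.2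
    by_cases h0 : x = 0
    · simp [h0]
    have e : ∀ p, On C p → (C.1.val (x / h) < 1 ↔ C.1.val (x * η' p) ≤ 1) := fun p a => by
      rw [map_div₀, map_mul, vh, v2 p a, C.1.val_eq (C.1.val_ne h0), ← exp_sub, ← exp_add]
      refine (exp_lt_exp (b := 0)).trans (Iff.trans ?_ (exp_le_exp (b := 0)).symm)
      omega
    exact ⟨fun a p b => (e p b).1 a, fun a => (e p hp).2 (a p hp)⟩
  let Gd : M.P → K → Prop := fun p x =>
    (∀ C' : Crv M, On C' p → C'.1.val x ≤ exp (d C')) ∧ (On C p → res C.1 (x / h) = s)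
  have c1 : ∀ p x x', Gd p x → Gd p x' → (x - x') * η' p ∈ (M.loc p).O := fun p x x' a a' =>
    lf.har p _ fun C' hC => by
      by_cases e : C' = C
      · subst e
        refine (v4 _).1 ?_ p hC
        have b := v3 _ (a.1 _ hC)
        have b' := v3 _ (a'.1 _ hC)
        rw [sub_div, ← res_eq_zero (C'.1.val.map_sub_le b b'), res_sub b b', a.2 hC, a'.2 hC,
          sub_self]
      · rw [map_mul, v1 p C' hC e]
        refine (mul_le_mul_left (C'.1.val.map_sub_le (a.1 _ hC) (a'.1 _ hC)) _).trans ?_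
        rw [← exp_add, add_neg_cancel, exp_zero]
  have c2 : ∀ a, ∃ x, ∀ᶠ b in zn a, Gd b x := fun a => by
    by_cases ha : On C a
    · obtain ⟨g, hg, e⟩ := hs a (η a) ha (hη a)
      have v5 : C.1.val (η a * h) = 1 := by
        rw [map_mul, eq_val (hη a) ha (hd C), vh, ← exp_add, neg_add_cancel, exp_zero]
      have v6 : C.1.val (g / η a / h) ≤ 1 := by
        rw [div_div, map_div₀, v5, div_one]
        exact ha g hg
      have v7 : res C.1 (η a * h) ≠ 0 := fun e0 => ((res_eq_zero v5.le).1 e0).ne v5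
      have v8 : res C.1 (g / η a / h) = s := by
        refine mul_right_cancel₀ v7 ?_
        rw [e, ← res_mul v6 v5.le, div_div, div_mul_cancel₀ _ (mul_ne_zero (hη a).1 hh.1)]
      refine ⟨g / η a, ?_⟩
      filter_upwards [lf.coh (hη a), Model.sp_mem hg] with b b1 b2
      refine ⟨fun C' hC => ?_, fun _ => v8⟩
      rw [map_div₀, eq_val b1 hC (hd C'), exp_neg, div_inv_eq_mul]
      exact mul_le_of_le_one_left' (hC g b2)
    · refine ⟨0, ?_⟩
      filter_upwards [lf.off C a ha] with b hb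
      exact ⟨fun C' _ => by simp, fun a => absurd a hb⟩
  choose γ hγ using c2
  obtain ⟨G, hG⟩ := hM γ fun a => by
    filter_upwards [hγ a] with b hb
    exact c1 b _ _ hb (zn_self (hγ b))
  have c3 : ∀ p, Gd p G := fun p => by
    have a := zn_self (hγ p)
    have e : G = (G - γ p) + γ p := by ring
    have b : ∀ C' : Crv M, On C' p → C'.1.val (G - γ p) ≤ exp (d C') := fun C' hC => by
      have b1 := hC _ (hG p)
      by_cases e : C' = C
      · subst e
        rw [map_mul, v2 p hC, exp_neg, mul_inv_le_iff₀ exp_pos, one_mul] at b1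
        exact b1.trans (exp_le_exp.2 (by omega))
      · rwa [map_mul, v1 p C' hC e, exp_neg, mul_inv_le_iff₀ exp_pos, one_mul] at b1
    refine ⟨fun C' hC => ?_, fun hC => ?_⟩
    · rw [e]
      exact C'.1.val.map_add_le (b C' hC) (a.1 C' hC)
    · have b1 := hC _ (hG p)
      have b2 : C.1.val ((G - γ p) / h) < 1 := (v4 _).2 fun q hq => by
        rwa [map_mul, v2 q hq, ← v2 p hC, ← map_mul]
      rw [e, add_div, res_add b2.le (v3 _ (a.1 _ hC)), (res_eq_zero b2.le).2 b2, zero_add, a.2 hC]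
  obtain ⟨p, hp, -⟩ := C.2
  refine ⟨G, fun C' => ?_, (c3 p).2 hp⟩
  obtain ⟨q, hq, -⟩ := C'.2
  rw [hd, Int.floor_intCast]
  exact (c3 q).1 C' hq

theorem isInt_sub_pr (hD : IsInt D) (C : Crv M) : IsInt (D - pr C) := fun C' => by
  classical
  obtain ⟨k, hk⟩ := hD C'
  rw [Finsupp.sub_apply, hk, single_apply]
  split_ifs
  · exact ⟨k - 1, by simp⟩
  · exact ⟨k, by simp⟩

/-- The vanishing theorem in the form of a lifting statement. -/
theorem LF.ml (lf : LF M) (hk : StmtKVM) {J : Finset (Crv M)} (hJ : SncC (J : Set (Crv M)))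
    {Y Δ : Dr M} (hY : IsInt Y) (sY : ∀ C ∉ J, Y C = 0) (sΔ : ∀ C ∉ J, Δ C = 0) (h0 : 0 ≤ Δ)
    (h1 : ∀ C, Δ C < 1) {μ m : ℕ} (hμ : 0 < μ) (hm : 0 < m) (hz : IsInt ((μ : ℝ) • (Y - Δ)))
    (hb : Bpf ((μ : ℝ) • (Y - Δ) - (m : ℝ) • wD M)) (hf : f ≠ 0)
    (e : D = KD M + Y + dvr M f) {η : M.P → K} (hη : ∀ p, Eqn D p (η p)) : ML M η := by
  classical
  choose y hy using fun (p : M.P) (j : J) => lf.eqn j.1 p
  choose w hw using hz
  choose c hc using hY
  have a1 := eq_monE hy (c := fun j => w j) (D := (μ : ℝ) • (Y - Δ))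
    (fun C hC => by simp [sY C hC, sΔ C hC]) (fun j => hw j)
  have a2 : H59.Sys.cl (fun j : J => w j) μ = fun j : J => c j := by
    funext j
    have b1 := hw j
    rw [Finsupp.smul_apply, Finsupp.sub_apply, hc, smul_eq_mul] at b1
    have b2 : (0 : ℝ) < μ := Nat.cast_pos.2 hμ
    have b3 : (((w j : ℚ) / μ : ℚ) : ℝ) = c j - Δ j := by
      push_cast
      rw [← b1, mul_div_cancel_left₀ _ b2.ne']
    have b4 : (0 : ℝ) ≤ Δ j := h0 j
    have b5 := h1 j
    rw [H59.Sys.cl, ← Rat.ceil_cast (α := ℝ), b3, Int.ceil_eq_iff]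
    constructor <;> linarith
  have a3 := eq_monE hy (c := fun j => c j) sY (fun j => hc j)
  refine hk K 2 M J y _ μ (r0 K) f η (lf.sncE hJ hy) (lf.vamp a1 hm hb) hμ fun b => ?_
  obtain ⟨κ, hκ⟩ := M.exists_crd b
  refine ⟨κ, hκ, lf.div_unit (hη b) ?_⟩
  have a4 : jac κ (r0 K) = M3S.jac κ (r0 K) := by
    rw [jac, Matrix.det_fin_two, M3S.jac]
    simp only [Matrix.of_apply]
    ring
  rw [a2, a4, e, add_comm (KD M + Y), ← add_assoc]
  exact eq_mul (eq_mul (lf.eq_dvr hf) (lf.isK b κ hκ)) (a3 b)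

end Pool.Agent.MP_ee8c61_ag.M3V
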