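import Pool.Agent.MP_ee8c61_ag.M3V.KVN
import Pool.Agent.MP_ee8c61_ag.M3V.RDEN
import Pool.Agent.MP_ee8c61_ag.M3V.RDER
import Pool.Agent.MP_ee8c61_ag.M3V.RETK
import Pool.Agent.MP_ee8c61_ag.M3V.RATL
import Pool.Agent.MP_ee8c61_ag.M3V.RSYS
import Pool.Agent.MP_ee8c61_ag.M3B1.Et
import Pool.Agent.MP_ee8c61_ag.KV59.Out
import Pool.Agent.MP_ee8c61_ag.M3SN.AllL

/-! The vanishing theorems, assembled. -/

namespace Pool.Agent.MP_ee8c61_ag.M3V

open M3S

theorem sysAll : StmtSYS := sys den der (etk M3B1.rowET) (atl den)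

theorem kvmAll : StmtKVM := kvm der sysAll KV59.skvg

variable (hF : All Fnd) (hO : OfOK) (hT : M3SN.Each fun S => S.Tools)

include hO hT

theorem vanAll : All fun M => VanS M (hF _ M).toFinS := fun K _ _ M =>
  vanS (hF K M) (hO K M (hF K M)).1 kvmAll (samp fun K _ _ S O => (hT K S O).nak)
    (shod fun K _ _ S O => (hT K S O).hodge)

include hF

theorem vanhAll : StmtVANH := vanh hF hO kvmAll (samp fun K _ _ S O => (hT K S O).nak)

theorem kvnAll (hA : All2 PulA) (hB : All2 PulB) (hP : All2 PltS) (hS : All SncS) : StmtKVN :=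
  kvn hF hO hA hB hP hS (vanhAll hF hO hT)
    (snul M3SN.latAll.anti fun K _ _ S O => (hT K S O).null)

end Pool.Agent.MP_ee8c61_ag.M3V
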