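import Pool.Agent.MP_ee8c61_ag.M3V.Geo
import Pool.Agent.MP_ee8c61_ag.M3V.Spec2
import Pool.Agent.MP_cce4c9_lc.H7.AllA

/-! Vanishing on surfaces for numerically ample classes. -/

namespace Pool.Agent.MP_ee8c61_ag.M3V

open Pool.Agent.MP_96693b_ag.RS Pool.Agent.MP_cce4c9_lc M3S Finsupp Filter Module

variable {K : Type} [Field K] [Algebra ℂ K] {M : Model K 2}

theorem lf_of (h : B2 M) : LF M where
  eqn C p := h.eqn _ (fun C' => by
    classical
    rw [single_apply]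
    split_ifs
    · exact ⟨1, by simp⟩
    · exact ⟨0, by simp⟩) p
  har := h.hart
  off := h.spo
  fin f := (h.fin f).subset fun C hC => fun h0 => hC (by simp [h0])
  isW := h.isW
  isK := h.isK

theorem isInt_add {D E : Dr M} (hD : IsInt D) (hE : IsInt E) : IsInt (D + E) := fun C => by
  obtain ⟨a, ha⟩ := hD C
  obtain ⟨b, hb⟩ := hE C
  exact ⟨a + b, by rw [Finsupp.add_apply, ha, hb, Int.cast_add]⟩

theorem isInt_sub {D E : Dr M} (hD : IsInt D) (hE : IsInt E) : IsInt (D - E) := fun C => by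
  obtain ⟨a, ha⟩ := hD C
  obtain ⟨b, hb⟩ := hE C
  exact ⟨a - b, by rw [Finsupp.sub_apply, ha, hb, Int.cast_sub]⟩

theorem isInt_smul {D : Dr M} (hD : IsInt D) (k : ℕ) : IsInt ((k : ℝ) • D) := fun C => by
  obtain ⟨a, ha⟩ := hD C
  exact ⟨k * a, by rw [Finsupp.smul_apply, ha, Int.cast_mul, Int.cast_natCast, smul_eq_mul]⟩

theorem isInt_dvr (h : FinS M) (f : K) : IsInt (dvr M f) := fun C => ⟨_, h.dva f C⟩

theorem isQ_sub {D E : Dr M} (hD : IsInt D) (hE : M3SN.IsQ E) : M3SN.IsQ (D - E) := fun C => by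
  obtain ⟨a, ha⟩ := hD C
  obtain ⟨b, hb⟩ := hE C
  exact ⟨a - b, by rw [Finsupp.sub_apply, ha, hb]; simp⟩

theorem bpf_of (h : FinS M) {D : Dr M} (hb : (toNS h).Bpf D) : Bpf D := fun p => by
  obtain ⟨f, h0, h1, h2⟩ := hb p
  refine ⟨f, (mem_H0 h0).2 fun C => ?_, h0, fun C hC => ?_⟩
  · rw [← h.dva]
    exact h1 C
  · have := h2 C hC
    rw [← h.dva]
    exact eq_neg_of_add_eq_zero_left this

theorem h0_eq (h : FinS M) (D : Dr M) : (toNS h).h0 D = h0 D := by
  have : (toNS h).H0 D = H0 D := by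
    ext f
    by_cases h0 : f = 0
    · simp [h0]
    · rw [mem_H0 h0]
      simp only [← h.dva]
      exact ⟨fun a => a h0, fun a _ => a⟩
  rw [M3SN.NS.h0, this, h0]

theorem ml_of (h : Fnd M) (ok : (toNS h.toFinS).OK) (hk : StmtKVM) (ha : SAMP)
    {J : Finset (Crv M)} {L Y Δ : Dr M} {η : M.P → K} {f : K} (hJ : SncC (J : Set (Crv M)))
    (hY : IsInt Y) (sY : ∀ C, C ∉ J → Y C = 0) (hq : M3SN.IsQ Δ) (sΔ : ∀ C, C ∉ J → Δ C = 0)
    (h0 : 0 ≤ Δ) (h1 : ∀ C, Δ C < 1) (hp : Pos (Y - Δ)) (hf : f ≠ 0)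
    (e : L = KD M + Y + dvr M f) (hη : ∀ p, Eqn L p (η p)) : ML M η := by
  obtain ⟨μ, m, hμ, hm, hz, hb⟩ := ha K _ ok (Y - Δ) (isQ_sub hY hq) hp
  exact (lf_of h.toB2).ml hk hJ hY sY sΔ h0 h1 hμ hm hz (bpf_of _ hb) hf e hη

theorem vanh (hF : All Fnd) (hO : OfOK) (hk : StmtKVM) (ha : SAMP) : StmtVANH := by
  intro K _ _ M J L Δ η hJ hL s1 hq s2 h0 h1 hp hη
  have h := hF K M
  refine ml_of h (hO K M h).1 hk ha hJ (isInt_sub hL h.kZ) s1 hq s2 h0 h1 hp one_ne_zero ?_ hη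
  ext C
  simp [h.dva]

theorem II_eq_sum (D E : Dr M) : II M D E = ∑ C ∈ E.support, E C * II M D (pr C) := by
  conv_lhs => rw [← E.sum_single, Finsupp.sum, map_sum]
  refine Finset.sum_congr rfl fun C _ => ?_
  rw [← smul_eq_mul, ← map_smul, smul_single, smul_eq_mul, mul_one]

theorem nef_eff {D E : Dr M} (hD : Nef D) (hE : 0 ≤ E) : 0 ≤ II M D E := by
  rw [II_eq_sum]
  exact Finset.sum_nonneg fun C _ => mul_nonneg (hE C) (hD C)

theorem II_dvr (h : Fnd M) {f : K} (hf : f ≠ 0) (D : Dr M) : II M (dvr M f) D = 0 := by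
  rw [II_eq_sum]
  exact Finset.sum_eq_zero fun C _ => by rw [h.num f C hf, mul_zero]

theorem II_int (ok : M3SN.Lat (II M)) {D E : Dr M} (hD : IsInt D) (hE : IsInt E) :
    ∃ n : ℤ, II M D E = n := by
  have a : ∀ {D E : Dr M}, IsInt E → (∀ C, ∃ n : ℤ, II M D (pr C) = n) →
      ∃ n : ℤ, II M D E = n := fun {D E} hE hD => by
    choose e he using hE
    choose d hd using hD
    exact ⟨∑ C ∈ E.support, e C * d C, by simp [II_eq_sum D E, he, hd]⟩
  exact a hE fun C => by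
    rw [ok.sym]
    exact a hD fun C' => ok.int C C'

/-- An irreducible smooth curve in a multiple of the hyperplane class. -/
theorem exists_sm (h : Fnd M) (ok : (toNS h.toFinS).OK) (hh : SHOD) :
    ∃ (k : ℕ) (f : K) (F : Crv M), 3 ≤ k ∧ f ≠ 0 ∧ SmC F ∧ pr F = dvr M f + (k : ℝ) • wD M := by
  classical
  obtain ⟨k, ⟨f, hf, hr⟩, hk⟩ := ((h.ber 0 fun _ => ⟨0, by simp⟩).and (eventually_ge_atTop 3)).exists
  rw [zero_add] at hr
  set D := dvr M f + (k : ℝ) • wD M with hD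
  have k0 : (0 : ℝ) < k := by exact_mod_cast (by omega : 0 < k)
  have a1 : ∀ E, II M D E = k * II M (wD M) E := fun E => by
    rw [hD, map_add, map_smul, LinearMap.add_apply, II_dvr h hf, zero_add, LinearMap.smul_apply,
      smul_eq_mul]
  have ww : 0 < II M (wD M) (wD M) := ok.ww
  obtain ⟨F, hF⟩ : ∃ F, D F = 1 := by
    by_contra h0
    have : D = 0 := Finsupp.ext fun C => (hr.co C).resolve_right fun e => h0 ⟨C, e⟩
    have b := a1 (wD M)
    rw [this, map_zero, LinearMap.zero_apply] at b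
    exact (mul_pos k0 ww).ne b
  refine ⟨k, f, F, hk, hf, hr.sm F hF, ?_⟩
  by_contra hne
  set E := D - pr F with hE
  have e0 : ∀ C, E C = 0 ∨ (C ≠ F ∧ D C = 1 ∧ E C = 1) := fun C => by
    by_cases c : C = F
    · exact Or.inl (by rw [hE, c, Finsupp.sub_apply, hF, single_eq_same, sub_self])
    · rw [hE, Finsupp.sub_apply, single_eq_of_ne c, sub_zero]
      exact (hr.co C).imp id fun a => ⟨c, a, a⟩
  have e1 : II M (pr F) E = 0 := by
    rw [II_eq_sum]
    refine Finset.sum_eq_zero fun C _ => ?_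
    rcases e0 C with a | ⟨a, b, -⟩
    · rw [a, zero_mul]
    · rw [le_antisymm (not_lt.1 fun c => ?_) (h.off F C a.symm), mul_zero]
      obtain ⟨p, c1, c2⟩ := (h.meet F C a.symm).1 c
      exact a (hr.dis C F p b hF c2 c1)
  have e2 : 0 < II M (wD M) E := by
    obtain ⟨C, hC⟩ : ∃ C, E C ≠ 0 := by
      by_contra h0
      exact hne (sub_eq_zero.1 (Finsupp.ext fun C => by_contra fun a => h0 ⟨C, a⟩ : E = 0)).symm
    rw [II_eq_sum]
    refine Finset.sum_pos (fun C' a => ?_) ⟨C, mem_support_iff.2 hC⟩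
    rw [((e0 C').resolve_left (mem_support_iff.1 a)).2.2, one_mul]
    exact one_pos.trans_le (h.wpos C')
  have e3 : 0 < II M (wD M) (pr F) := one_pos.trans_le (h.wpos F)
  have zF : IsInt (pr F) := fun C => by
    rw [single_apply]
    split_ifs
    · exact ⟨1, by simp⟩
    · exact ⟨0, by simp⟩
  have zE : IsInt E := fun C => (e0 C).elim (fun a => ⟨0, by simp [a]⟩) fun a => ⟨1, by simp [a.2.2]⟩
  obtain ⟨a, ha⟩ := II_int ok.lat h.wZ zE
  obtain ⟨b, hb⟩ := II_int ok.lat h.wZ zF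
  have e4 : D = pr F + E := by rw [hE, add_sub_cancel]
  have e5 := a1 (pr F)
  have e6 := a1 E
  rw [e4, map_add, LinearMap.add_apply] at e5 e6
  rw [h.sym E, e1, add_zero, hb] at e5
  rw [e1, zero_add, ha] at e6
  rw [ha] at e2
  rw [hb] at e3
  have e7 := hh K _ ok ((a : ℝ) • pr F - (b : ℝ) • E) (fun C => by
    obtain ⟨x, hx⟩ := zF C
    obtain ⟨y, hy⟩ := zE C
    exact ⟨a * x - b * y, by
      change (a : ℝ) * pr F C - b * E C = _
      rw [hx, hy]; simp⟩) (by
    change II M _ (wD M) = 0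
    rw [h.sym, map_sub, map_smul, map_smul, ha, hb, smul_eq_mul, smul_eq_mul]
    ring)
  change II M _ _ ≤ 0 at e7
  simp only [map_sub, map_smul, LinearMap.sub_apply, LinearMap.smul_apply, smul_eq_mul] at e7
  rw [h.sym E (pr F), e1, e5, e6] at e7
  nlinarith [mul_pos (mul_pos e2 e2) (mul_pos k0 e3), mul_pos (mul_pos e3 e3) (mul_pos k0 e2)]

theorem h0_dvr (h : FinS M) {f : K} (hf : f ≠ 0) (D : Dr M) : h0 (D + dvr M f) = h0 D := by
  refine LinearEquiv.finrank_eq (LinearEquiv.ofSubmodules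
    (LinearEquiv.smulOfNeZero K K f hf |>.restrictScalars ℂ) _ _ ?_)
  ext x
  rw [Submodule.mem_map]
  have key : ∀ y, y ∈ H0 (D + dvr M f) ↔ f * y ∈ H0 D := fun y => by
    by_cases h0 : y = 0
    · simp [h0]
    rw [mem_H0 h0, mem_H0 (mul_ne_zero hf h0)]
    refine forall_congr' fun C => ?_
    rw [Finsupp.add_apply, h.dva, C.1.ord_mul (C.1.val_ne hf) (C.1.val_ne h0), Int.cast_add]
    constructor <;> intro <;> linarith
  constructor
  · rintro ⟨y, hy, rfl⟩
    exact (key y).1 hy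
  · intro hx
    have e : f * (x / f) = x := mul_div_cancel₀ x hf
    exact ⟨x / f, (key _).2 (e.symm ▸ hx), e⟩

theorem vanS (h : Fnd M) (ok : (toNS h.toFinS).OK) (hk : StmtKVM) (ha : SAMP) (hh : SHOD) :
    VanS M h.toFinS := by
  intro J hJ sK sw (L : Dr M) (Δ : Dr M) (hL : IsInt L) (sL : ∀ C, C ∉ J → L C = 0) hq
    (sΔ : ∀ C, C ∉ J → Δ C = 0) (h0 : 0 ≤ Δ) (h1 : ∀ C, Δ C < 1) hp
  obtain ⟨k, f, F, k3, hf, hF, eF⟩ := exists_sm h ok hh
  obtain ⟨g, hg⟩ := H7.genus (h.ff F)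
  obtain ⟨g1, g2⟩ := h.gsm F hF g hg
  have g3 := h.adj F hF g hg
  obtain ⟨ε, ε0, hε⟩ : Pos (L - KD M - Δ) := hp
  have lf := lf_of h.toB2
  have wn : Nef (wD M) := fun C => zero_le_one.trans (h.wpos C)
  have ww : 0 < II M (wD M) (wD M) := ok.ww
  have zF : IsInt (pr F) := eF ▸ isInt_add (isInt_dvr h.toFinS f) (isInt_smul h.wZ k)
  have iF : ∀ D, II M D (pr F) = k * II M (wD M) D := fun D => by
    rw [h.sym, eF, map_add, map_smul, LinearMap.add_apply, II_dvr h hf, zero_add,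
      LinearMap.smul_apply, smul_eq_mul]
  have k0 : (3 : ℝ) ≤ k := by exact_mod_cast k3
  have a1 : 1 ≤ II M (wD M) (L - KD M) := by
    obtain ⟨n, hn⟩ := II_int ok.lat h.wZ (isInt_sub hL h.kZ)
    have b1 := hε F
    have b2 := nef_eff wn h0
    rw [iF, map_sub, map_sub, map_smul, smul_eq_mul] at b1
    have b3 := nonneg_of_mul_nonneg_right b1 (by linarith : (0 : ℝ) < k) 
    have b4 : (0 : ℝ) < n := by nlinarith [mul_pos ε0 ww]
    rw [hn]
    exact_mod_cast (show (1 : ℤ) ≤ n by exact_mod_cast b4)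
  have step : ∀ j : ℕ, ee (L + ((j + 1 : ℕ) : ℝ) • pr F) = ee (L + (j : ℝ) • pr F) := fun j => by
    set D := L + ((j + 1 : ℕ) : ℝ) • pr F with hD
    have zD : IsInt D := isInt_add hL (isInt_smul zF _)
    have e1 : D - pr F = L + (j : ℝ) • pr F := by
      rw [hD, Nat.cast_succ, add_smul, one_smul, ← add_assoc, add_sub_cancel_right]
    choose η hη using lf.exists_eqn (isInt_sub_pr zD F)
    have b1 : ML M η := by
      refine ml_of h ok hk ha hJ (Y := L - KD M + ((j * k : ℕ) : ℝ) • wD M)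
        (isInt_add (isInt_sub hL h.kZ) (isInt_smul h.wZ _))
        (fun C hC => by simp [sL C hC, sK C hC, sw C hC]) hq sΔ h0 h1 ⟨ε, ε0, fun C => ?_⟩
        (pow_ne_zero j hf) ?_ hη
      · have c1 := hε C
        have c2 := mul_nonneg (Nat.cast_nonneg (α := ℝ) (j * k)) (wn C)
        simp only [map_sub, map_add, map_smul, LinearMap.sub_apply, LinearMap.add_apply,
          LinearMap.smul_apply, smul_eq_mul] at c1 ⊢
        linarith
      · rw [e1, eF]
        ext C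
        simp only [Finsupp.add_apply, Finsupp.sub_apply, Finsupp.smul_apply, h.dva,
          H87.Place.ord_pow, smul_eq_mul]
        push_cast
        ring
    obtain ⟨u, hu⟩ := h.mv D F zD
    have b2 := (h.heq D F u zD hu).2 (lf.onto zD hη b1 u hu)
    have b3 : II M D (pr F) = II M (D - pr F) (pr F) + II M (pr F) (pr F) := by
      rw [map_sub, LinearMap.sub_apply, sub_add_cancel]
    have b4 : II M (D - pr F) (pr F) = II M L (pr F) + j * II M (pr F) (pr F) := by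
      rw [e1, map_add, map_smul, LinearMap.add_apply, LinearMap.smul_apply, smul_eq_mul]
    have b5 : 0 ≤ II M (pr F) (pr F) := by
      rw [iF]
      exact mul_nonneg (Nat.cast_nonneg k) (wn F)
    have b6 := iF (L - KD M)
    rw [map_sub, LinearMap.sub_apply] at b6
    rw [map_add, LinearMap.add_apply] at g3
    have b7 := (g2 D u zD hu (by
      push_cast
      nlinarith [mul_nonneg (Nat.cast_nonneg (α := ℝ) j) b5])).1
    rw [← e1, ee, ee, b2, Nat.cast_add, b7, chi, chi]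
    simp only [map_sub, LinearMap.sub_apply]
    rw [h.sym (pr F) D]
    push_cast
    linarith
  have all : ∀ j : ℕ, ee (L + (j : ℝ) • pr F) = ee L := fun j => by
    induction j with
    | zero => simp
    | succ j ih => rw [step, ih]
  obtain ⟨k1, hk1⟩ := ok.rr L hL
  have c1 := hk1 (k1 * k) (Nat.le_mul_of_pos_right _ (by omega))
  have c2 := all k1
  have c3 : L + (k1 : ℝ) • pr F = L + ((k1 * k : ℕ) : ℝ) • wD M + dvr M (f ^ k1) := by
    rw [eF]
    ext C
    simp only [Finsupp.add_apply, Finsupp.smul_apply, h.dva, H87.Place.ord_pow, smul_eq_mul]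
    push_cast
    ring
  have c4 : ∀ D, chi (D + dvr M (f ^ k1)) = chi D := fun D => by
    have d := II_dvr h (pow_ne_zero k1 hf)
    simp only [chi, map_add, LinearMap.add_apply, d, h.sym _ (dvr M (f ^ k1)), add_zero]
  rw [h0_eq] at c1 ⊢
  rw [c3, ee, ee, h0_dvr h.toFinS (pow_ne_zero k1 hf), c4] at c2
  have c5 : (M3S.h0 (L + ((k1 * k : ℕ) : ℝ) • wD M) : ℝ) = chi (L + ((k1 * k : ℕ) : ℝ) • wD M) := c1
  change (M3S.h0 L : ℝ) = chi L
  linarith

end Pool.Agent.MP_ee8c61_ag.M3V
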